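import Pool.Agent.KS6_1.Nil.Defs

open MeasureTheory Filter Topology ENNReal
open scoped Manifold ContDiff

namespace KS6Nil

/-- functions on `ℤ^d` which factor through a torus -/
def IsTor {d : ℕ} (p : (Fin d → ℤ) → ℂ) : Prop :=
  ∃ (ι : Type) (_ : Fintype ι) (θ : ι → Fin d → ℝ) (F : (ι → ℝ) → ℂ), Continuous F ∧
    (∀ (x : ι → ℝ) (n : ι → ℤ), F (fun i => x i + n i) = F x) ∧
      ∀ v : Fin d → ℤ, p v = F (fun i => ∑ j, θ i j * v j)

theorem IsTor.comp {d : ℕ} {p : (Fin d → ℤ) → ℂ} (h : IsTor p) (R : ℂ → ℂ) (hR : Continuous R) :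
    IsTor (fun v => R (p v)) := by
  obtain ⟨ι, i1, θ, F, hF, hper, hp⟩ := h
  exact ⟨ι, i1, θ, fun x => R (F x), hR.comp hF, fun x n => congrArg R (hper x n),
    fun v => congrArg R (hp v)⟩

theorem IsTor.add {d : ℕ} {p q : (Fin d → ℤ) → ℂ} (hp : IsTor p) (hq : IsTor q) :
    IsTor (fun v => p v + q v) := by
  obtain ⟨ι, i1, θ, F, hF, hper, hp⟩ := hp
  obtain ⟨κ, i2, θ', F', hF', hper', hq⟩ := hq
  refine ⟨ι ⊕ κ, inferInstance, Sum.elim θ θ', fun x => F (fun i => x (Sum.inl i)) +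
    F' (fun i => x (Sum.inr i)), ?_, ?_, ?_⟩
  · exact (hF.comp (by fun_prop)).add (hF'.comp (by fun_prop))
  · intro x n
    simp only
    rw [hper (fun i => x (Sum.inl i)) (fun i => n (Sum.inl i)),
      hper' (fun i => x (Sum.inr i)) (fun i => n (Sum.inr i))]
  · intro v
    simp only [Sum.elim_inl, Sum.elim_inr]
    rw [hp, hq]

instance instChartedMul (E : Type) [NormedAddCommGroup E] [NormedSpace ℝ E] :
    ChartedSpace E (Multiplicative E) := inferInstanceAs (ChartedSpace E E)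

theorem lieMul (E : Type) [NormedAddCommGroup E] [NormedSpace ℝ E] :
    LieGroup 𝓘(ℝ, E) ∞ (Multiplicative E) := by
  have h : LieAddGroup 𝓘(ℝ, E) ∞ E := inferInstance
  exact
    { compatible := h.compatible
      contMDiff_mul := h.contMDiff_add
      contMDiff_inv := h.contMDiff_neg }

/-- integer points -/
def intSub (ι : Type) : Subgroup (Multiplicative (ι → ℝ)) where
  carrier := {x | ∃ n : ι → ℤ, Multiplicative.toAdd x = fun i => (n i : ℝ)}
  mul_mem' := by
    rintro x y ⟨n, hn⟩ ⟨m, hm⟩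
    refine ⟨n + m, ?_⟩
    rw [toAdd_mul, hn, hm]
    funext i
    simp
  one_mem' := ⟨0, by funext i; simp⟩
  inv_mem' := by
    rintro x ⟨n, hn⟩
    refine ⟨-n, ?_⟩
    rw [toAdd_inv, hn]
    funext i
    simp

theorem discrete_intSub (ι : Type) [Fintype ι] : DiscreteTopology (intSub ι) := by
  refine DiscreteTopology.of_forall_le_dist (r := 1) one_pos ?_
  rintro ⟨x, n, hn⟩ ⟨y, m, hm⟩ hne
  have hxy : Multiplicative.toAdd x ≠ Multiplicative.toAdd y := by
    intro h
    apply hne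
    exact Subtype.ext (Multiplicative.toAdd.injective h)
  have h1 : ∃ i, n i ≠ m i := by
    by_contra hcon
    push Not at hcon
    apply hxy
    rw [hn, hm]
    funext i
    rw [hcon i]
  obtain ⟨i, hi⟩ := h1
  have h2 : (1 : ℝ) ≤ |((n i : ℝ) - m i)| := by
    have : (1 : ℤ) ≤ |n i - m i| := Int.one_le_abs (sub_ne_zero.2 hi)
    exact_mod_cast this
  have h3 := dist_le_pi_dist (Multiplicative.toAdd x) (Multiplicative.toAdd y) i
  rw [hn, hm] at h3
  rw [Real.dist_eq] at h3
  have h4 : dist (⟨x, n, hn⟩ : intSub ι) ⟨y, m, hm⟩ =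
      dist (Multiplicative.toAdd x) (Multiplicative.toAdd y) := rfl
  rw [h4, hn, hm]
  exact h2.trans h3

theorem compact_quot (ι : Type) [Fintype ι] :
    CompactSpace (Multiplicative (ι → ℝ) ⧸ intSub ι) := by
  have h1 : IsCompact (Set.Icc (0 : ι → ℝ) 1) := isCompact_Icc
  have h2 : Continuous (fun x : ι → ℝ =>
      ((Multiplicative.ofAdd x : Multiplicative (ι → ℝ)) : Multiplicative (ι → ℝ) ⧸ intSub ι)) :=
    continuous_quot_mk.comp continuous_ofAdd
  refine ⟨?_⟩
  have h3 := h1.image h2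
  convert h3
  symm
  rw [Set.eq_univ_iff_forall]
  intro y
  obtain ⟨x, rfl⟩ := QuotientGroup.mk_surjective y
  refine ⟨fun i => Int.fract (Multiplicative.toAdd x i), ⟨fun i => Int.fract_nonneg _,
    fun i => (Int.fract_lt_one _).le⟩, ?_⟩
  rw [QuotientGroup.eq]
  refine ⟨fun i => ⌊Multiplicative.toAdd x i⌋, ?_⟩
  rw [toAdd_mul, toAdd_inv, toAdd_ofAdd]
  funext i
  simp only [Pi.add_apply, Pi.neg_apply]
  have := Int.fract_add_floor (Multiplicative.toAdd x i)
  linarith

theorem IsTor.isNilseq {d : ℕ} {p : (Fin d → ℤ) → ℂ} (h : IsTor p) : IsNilseq 1 p := by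
  obtain ⟨ι, i1, θ, F, hF, hper, hp⟩ := h
  refine ⟨ι → ℝ, inferInstance, inferInstance, inferInstance, Multiplicative (ι → ℝ),
    inferInstance, inferInstance, inferInstanceAs (T2Space (ι → ℝ)),
    inferInstanceAs (SecondCountableTopology (ι → ℝ)), instChartedMul (ι → ℝ), lieMul (ι → ℝ),
    CommGroup.isNilpotent, intSub ι, discrete_intSub ι, compact_quot ι,
    ⟨Quotient.lift (fun x : Multiplicative (ι → ℝ) => F (Multiplicative.toAdd x)) ?_, ?_⟩,
    fun j => Multiplicative.ofAdd (fun i => θ i j), ?_, fun i j => Commute.all _ _, ?_⟩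
  · intro x y hxy
    have h1 : x⁻¹ * y ∈ intSub ι := QuotientGroup.leftRel_apply.1 hxy
    obtain ⟨n, hn⟩ := h1
    have h2 : Multiplicative.toAdd y = fun i => Multiplicative.toAdd x i + n i := by
      rw [toAdd_mul, toAdd_inv] at hn
      funext i
      have := congrFun hn i
      simp only [Pi.add_apply, Pi.neg_apply] at this
      linarith
    show F (Multiplicative.toAdd x) = F (Multiplicative.toAdd y)
    rw [h2, hper]
  · exact Continuous.quotient_lift (hF.comp continuous_toAdd) _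
  · exact CommGroup.nilpotencyClass_le_one
  · intro v _
    rw [hp]
    show _ = F (Multiplicative.toAdd _)
    congr 1
    rw [List.prod_ofFn, toAdd_prod]
    funext i
    rw [Finset.sum_apply]
    refine Finset.sum_congr rfl fun j _ => ?_
    rw [toAdd_zpow, toAdd_ofAdd, Pi.smul_apply, zsmul_eq_mul]
    ring

end KS6Nil
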