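import Pool.Agent.KS6_1.Nil.Mix
import Pool.Agent.KS6_1.Nil.Torus

open MeasureTheory Filter Topology ENNReal
open scoped InnerProductSpace ComplexConjugate

namespace KS6Nil

/-- the characters of `ℤ^d` -/
noncomputable def chr {d : ℕ} (z : Fin d → Circle) (v : Fin d → ℤ) : ℂ :=
  ((∏ j, z j ^ v j : Circle) : ℂ)

theorem chr_mul {d : ℕ} (z w : Fin d → Circle) (v : Fin d → ℤ) :
    chr (fun j => z j * w j) v = chr z v * chr w v := by
  unfold chr
  rw [← Circle.coe_mul, ← Finset.prod_mul_distrib]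
  congr 2
  funext j
  rw [mul_zpow]

theorem norm_chr {d : ℕ} (z : Fin d → Circle) (v : Fin d → ℤ) : ‖chr z v‖ = 1 :=
  Circle.norm_coe _

/-- trigonometric polynomials -/
noncomputable def trig (d : ℕ) : Submodule ℂ ((Fin d → ℤ) → ℂ) :=
  Submodule.span ℂ (Set.range chr)

theorem exp_sum {ι : Type*} (s : Finset ι) (f : ι → ℝ) :
    Circle.exp (∑ i ∈ s, f i) = ∏ i ∈ s, Circle.exp (f i) := by
  classical
  induction s using Finset.induction_on with
  | empty => simp
  | insert a s ha ih => rw [Finset.sum_insert ha, Finset.prod_insert ha, Circle.exp_add, ih]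

theorem isTor_chr {d : ℕ} (z : Fin d → Circle) : IsTor (chr z) := by
  refine ⟨Unit, inferInstance, fun _ j => Complex.arg (z j) / (2 * Real.pi), fun x =>
    ((Circle.exp (2 * Real.pi * x ())) : ℂ), ?_, ?_, ?_⟩
  · show Continuous (fun x : Unit → ℝ =>
      Complex.exp (((2 * Real.pi * x () : ℝ) : ℂ) * Complex.I))
    fun_prop
  · intro x n
    simp only
    have h1 : 2 * Real.pi * (x () + n ()) = 2 * Real.pi * x () + n () * (2 * Real.pi) := by ring
    rw [h1, Circle.exp_add, Circle.exp_intCast_mul, Circle.exp_two_pi, one_zpow, mul_one]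
  · intro v
    unfold chr
    congr 1
    have hpi : (2 * Real.pi) ≠ 0 := by positivity
    have h1 : 2 * Real.pi * ∑ j, Complex.arg (z j) / (2 * Real.pi) * v j =
        ∑ j, v j * Complex.arg (z j) := by
      rw [Finset.mul_sum]
      refine Finset.sum_congr rfl fun j _ => ?_
      field_simp
    rw [h1, exp_sum]
    refine Finset.prod_congr rfl fun j _ => ?_
    rw [Circle.exp_intCast_mul, Circle.exp_arg]

theorem isTor_trig {d : ℕ} (p : (Fin d → ℤ) → ℂ) (hp : p ∈ trig d) : IsTor p := by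
  unfold trig at hp
  induction hp using Submodule.span_induction with
  | mem x hx =>
    obtain ⟨z, rfl⟩ := hx
    exact isTor_chr z
  | zero =>
    exact ⟨Empty, inferInstance, fun i => i.elim, fun _ => 0, continuous_const, fun _ _ => rfl,
      fun _ => rfl⟩
  | add x y _ _ hx hy => exact hx.add hy
  | smul c x _ hx => exact hx.comp (fun y => c * y) (by fun_prop)

variable {H : Type*} [NormedAddCommGroup H] [InnerProductSpace ℂ H]

/-- joint eigenvectors -/
def IsEig {d : ℕ} (π : (Fin d → ℤ) → H →ₗᵢ[ℂ] H) (e : H) : Prop := ∀ k, ∃ c : ℂ, π k e = c • e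

theorem eig_char {d : ℕ} (π : (Fin d → ℤ) → H →ₗᵢ[ℂ] H)
    (hadd : ∀ u v x, π (u + v) x = π u (π v x)) (h0 : ∀ x, π 0 x = x) (e : H) (he : IsEig π e) :
    ∃ z : Fin d → Circle, ∀ k, π k e = chr z k • e := by
  by_cases he0 : e = 0
  · exact ⟨fun _ => 1, fun k => by rw [he0]; simp⟩
  choose c hc using he
  have hcinj : ∀ a b : ℂ, a • e = b • e → a = b := fun a b h => smul_left_injective ℂ he0 h
  have hn : ∀ k, ‖c k‖ = 1 := by
    intro k
    have h1 := (π k).norm_map e
    rw [hc, norm_smul] at h1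
    have h2 : ‖e‖ ≠ 0 := norm_ne_zero_iff.2 he0
    field_simp at h1
    exact h1
  let f : (Fin d → ℤ) →+ Additive Circle :=
    { toFun := fun k => Additive.ofMul (⟨c k, by
        exact mem_sphere_zero_iff_norm.2 (hn k)⟩ : Circle)
      map_zero' := by
        apply Additive.toMul.injective
        apply Circle.ext
        apply hcinj
        show c 0 • e = ((1 : Circle) : ℂ) • e
        rw [← hc, h0]; simp
      map_add' := by
        intro u v
        apply Additive.toMul.injective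
        apply Circle.ext
        apply hcinj
        show c (u + v) • e = (c u * c v) • e
        rw [← hc, hadd, hc v, map_smul, hc u, smul_smul, mul_comm] }
  refine ⟨fun j => Additive.toMul (f (Pi.single j 1)), fun k => ?_⟩
  have h1 : k = ∑ j, k j • (Pi.single j (1 : ℤ) : Fin d → ℤ) := by
    conv_lhs => rw [← Finset.univ_sum_single k]
    refine Finset.sum_congr rfl fun j _ => ?_
    rw [← Pi.single_smul]
    simp
  have h2 : f k = ∑ j, k j • f (Pi.single j 1) := by
    conv_lhs => rw [h1]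
    rw [map_sum]
    refine Finset.sum_congr rfl fun j _ => ?_
    rw [map_zsmul]
  have h3 : c k = chr (fun j => Additive.toMul (f (Pi.single j 1))) k := by
    have h4 : c k = ((Additive.toMul (f k) : Circle) : ℂ) := rfl
    rw [h4, h2]
    unfold chr
    rw [toMul_sum]
    rfl
  rw [hc, h3]

/-- mean squares along Følner sequences -/
theorem mean_small {d : ℕ} (b : (Fin d → ℤ) → ℝ) (M : ℝ) (hb : ∀ v, 0 ≤ b v ∧ b v ≤ M)
    (B : Finset (Fin d → ℤ)) (hB : B.Nonempty) (P : (Fin d → ℤ) → (Fin d → ℤ)) (c : ℝ)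
    (hP : ∀ v, ∑ k ∈ B, b (v + P k) ≤ c * B.card) (I : ℕ → Finset (Fin d → ℤ)) (hI : IsFolner I)
    (η : ℝ) (hη : 0 < η) : ∀ᶠ j in atTop, ∑ v ∈ I j, b v ≤ (c + η) * (I j).card := by
  have hBc : (0 : ℝ) < B.card := by exact_mod_cast hB.card_pos
  have h1 : Tendsto (fun j => ∑ k ∈ B, M * (((symmDiff ((I j).image (· + P k)) (I j)).card : ℝ) /
      ((I j).card : ℝ))) atTop (𝓝 (∑ k ∈ B, M * 0)) :=
    tendsto_finsetSum _ fun k _ => (hI.2.2 (P k)).const_mul M
  have h2 : (∑ k ∈ B, M * (0 : ℝ)) < η * B.card := by simp; positivity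
  filter_upwards [h1.eventually (gt_mem_nhds h2)] with j hj
  have hIc : (0 : ℝ) < (I j).card := by exact_mod_cast (hI.1 j).card_pos
  have h3 : ∀ k ∈ B, ∑ v ∈ I j, b v ≤ ∑ v ∈ I j, b (v + P k) +
      M * ((symmDiff ((I j).image (· + P k)) (I j)).card : ℝ) := by
    intro k _
    have h4 := shift_sum (I j) (P k) b M (fun v _ => by
      rw [Real.norm_eq_abs, abs_of_nonneg (hb v).1]; exact (hb v).2)
    rw [Real.norm_eq_abs] at h4
    have := neg_abs_le (∑ v ∈ I j, b (v + P k) - ∑ v ∈ I j, b v)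
    linarith
  have h5 := Finset.sum_le_sum h3
  rw [Finset.sum_const, nsmul_eq_mul, Finset.sum_add_distrib, Finset.sum_comm] at h5
  have h6 : ∑ v ∈ I j, ∑ k ∈ B, b (v + P k) ≤ (I j).card * (c * B.card) := by
    rw [← nsmul_eq_mul]
    exact Finset.sum_le_card_nsmul _ _ _ fun v _ => hP v
  have h7 : ∑ k ∈ B, M * ((symmDiff ((I j).image (· + P k)) (I j)).card : ℝ) ≤
      (I j).card * (η * B.card) := by
    have h8 := mul_le_mul_of_nonneg_left hj.le hIc.le
    refine le_trans (le_of_eq ?_) h8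
    rw [Finset.mul_sum]
    refine Finset.sum_congr rfl fun k _ => ?_
    field_simp
  have h9 : (B.card : ℝ) * ∑ v ∈ I j, b v ≤ B.card * ((c + η) * (I j).card) := by
    calc _ ≤ _ := h5
      _ ≤ (I j).card * (c * B.card) + (I j).card * (η * B.card) := add_le_add h6 h7
      _ = _ := by ring
  exact le_of_mul_le_mul_left h9 hBc

/-- the span of the joint eigenvectors -/
def eigSpan {d : ℕ} (π : (Fin d → ℤ) → H →ₗᵢ[ℂ] H) : Submodule ℂ H :=
  Submodule.span ℂ {e | IsEig π e}

theorem trig_left {d : ℕ} (R S : (Fin d → ℤ) → H →ₗᵢ[ℂ] H)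
    (hR : ∀ u v x, R (u + v) x = R u (R v x)) (hR0 : ∀ x, R 0 x = x)
    (hS : ∀ u v x, S (u + v) x = S u (S v x)) (hS0 : ∀ x, S 0 x = x)
    (Λ : H →L[ℂ] H →L[ℂ] ℂ) (g f : H) (hg : g ∈ eigSpan R) (hf : f ∈ eigSpan S) :
    (fun v => Λ (R v g) (S v f)) ∈ trig d := by
  unfold eigSpan at hg hf
  induction hg using Submodule.span_induction with
  | mem x hx =>
    obtain ⟨z, hz⟩ := eig_char R hR hR0 x hx
    induction hf using Submodule.span_induction with
    | mem y hy =>
      obtain ⟨w, hw⟩ := eig_char S hS hS0 y hy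
      have h1 : (fun v => Λ (R v x) (S v y)) = (Λ x y) • chr (fun j => z j * w j) := by
        funext v
        rw [hz, hw, map_smul, map_smul, smul_apply, Pi.smul_apply, chr_mul]
        simp only [smul_eq_mul]
        ring
      rw [h1]
      exact Submodule.smul_mem _ _ (Submodule.subset_span ⟨_, rfl⟩)
    | zero =>
      have h1 : (fun v => Λ (R v x) (S v 0)) = 0 := by
        funext v; simp
      rw [h1]; exact Submodule.zero_mem _
    | add a b _ _ ha hb =>
      have h1 : (fun v => Λ (R v x) (S v (a + b))) = (fun v => Λ (R v x) (S v a)) +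
          (fun v => Λ (R v x) (S v b)) := by
        funext v; simp
      rw [h1]; exact Submodule.add_mem _ ha hb
    | smul c a _ ha =>
      have h1 : (fun v => Λ (R v x) (S v (c • a))) = c • (fun v => Λ (R v x) (S v a)) := by
        funext v; simp
      rw [h1]; exact Submodule.smul_mem _ _ ha
  | zero =>
    have h1 : (fun v => Λ (R v 0) (S v f)) = 0 := by
      funext v; simp
    rw [h1]; exact Submodule.zero_mem _
  | add a b _ _ ha hb =>
    have h1 : (fun v => Λ (R v (a + b)) (S v f)) = (fun v => Λ (R v a) (S v f)) +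
        (fun v => Λ (R v b) (S v f)) := by
      funext v; simp
    rw [h1]; exact Submodule.add_mem _ ha hb
  | smul c a _ ha =>
    have h1 : (fun v => Λ (R v (c • a)) (S v f)) = c • (fun v => Λ (R v a) (S v f)) := by
      funext v; simp
    rw [h1]; exact Submodule.smul_mem _ _ ha

/-- the splitting into an almost periodic and a weakly mixing part -/
theorem splitting [CompleteSpace H] {d : ℕ} (π : (Fin d → ℤ) → H →ₗᵢ[ℂ] H) (g : H) :
    ∃ gc gw : H, g = gc + gw ∧ (∀ e, IsEig π e → ⟪gw, e⟫_ℂ = 0) ∧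
      ∀ ε : ℝ, 0 < ε → ∃ g' ∈ eigSpan π, ‖gc - g'‖ ≤ ε := by
  set K := (eigSpan π).topologicalClosure with hK
  refine ⟨K.starProjection g, g - K.starProjection g, by abel, ?_, ?_⟩
  · intro e he
    have h1 : e ∈ K := Submodule.le_topologicalClosure _ (Submodule.subset_span he)
    have h2 := Submodule.sub_starProjection_mem_orthogonal (K := K) g
    rw [Submodule.mem_orthogonal'] at h2
    exact h2 e h1
  · intro ε hε
    have h1 : K.starProjection g ∈ K := Submodule.starProjection_apply_mem K g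
    have h2 : K.starProjection g ∈ closure ((eigSpan π : Submodule ℂ H) : Set H) := by
      rw [← Submodule.topologicalClosure_coe]; exact h1
    obtain ⟨g', hg', hd⟩ := Metric.mem_closure_iff.1 h2 ε hε
    refine ⟨g', hg', ?_⟩
    rw [← dist_eq_norm]; exact hd.le

/-- the abstract approximation theorem -/
theorem abstract_approx [CompleteSpace H] {d : ℕ} (R S : (Fin d → ℤ) → H →ₗᵢ[ℂ] H)
    (hR : ∀ u v x, R (u + v) x = R u (R v x)) (hR0 : ∀ x, R 0 x = x)
    (hS : ∀ u v x, S (u + v) x = S u (S v x)) (hS0 : ∀ x, S 0 x = x)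
    (P Q : (Fin d → ℤ) → (Fin d → ℤ))
    (hRP : ∀ v k x, R (v + P k) x = R v (R k x)) (hSP : ∀ v k x, S (v + P k) x = S v x)
    (hRQ : ∀ v k x, R (v + Q k) x = R v x) (hSQ : ∀ v k x, S (v + Q k) x = S v (S k x))
    (Λ : H →L[ℂ] H →L[ℂ] ℂ) (g f : H) (δ : ℝ) (hδ : 0 < δ) :
    ∃ p ∈ trig d, ∀ I : ℕ → Finset (Fin d → ℤ), IsFolner I →
      ∀ᶠ j in atTop, ∑ v ∈ I j, ‖Λ (R v g) (S v f) - p v‖ ^ 2 ≤ δ * (I j).card := by
  obtain ⟨gc, gw, hg, hgw, hgc⟩ := splitting R g
  obtain ⟨fc, fw, hf, hfw, hfc⟩ := splitting S f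
  set C : ℝ := ‖Λ‖ + 1 with hC
  have hCpos : 0 < C := by positivity
  have hΛ : ∀ x y, ‖Λ x y‖ ≤ C * ‖x‖ * ‖y‖ := by
    intro x y
    refine (Λ.le_opNorm₂ x y).trans ?_
    gcongr
    linarith
  -- first error term
  set N1 : ℝ := (C * ‖f‖) ^ 2 + 1 with hN1
  have hN1p : N1 ≠ 0 := by positivity
  obtain ⟨B1, hB1, hb1⟩ := weak_mixing R hR hR0 gw hgw (δ / (18 * N1)) (by positivity)
  set N2 : ℝ := (C * ‖gc‖) ^ 2 + 1 with hN2
  have hN2p : N2 ≠ 0 := by positivity
  obtain ⟨B2, hB2, hb2⟩ := weak_mixing S hS hS0 fw hfw (δ / (18 * N2)) (by positivity)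
  -- trigonometric polynomial
  obtain ⟨ε, hε, hεb⟩ : ∃ ε : ℝ, 0 < ε ∧ (C * (ε * ‖fc‖ + (‖gc‖ + ε) * ε)) ^ 2 ≤ δ / 9 := by
    have h1 : Tendsto (fun ε : ℝ => (C * (ε * ‖fc‖ + (‖gc‖ + ε) * ε)) ^ 2) (𝓝[>] 0)
        (𝓝 ((C * (0 * ‖fc‖ + (‖gc‖ + 0) * 0)) ^ 2)) := by
      apply Tendsto.mono_left _ nhdsWithin_le_nhds
      apply Continuous.tendsto
      fun_prop
    have h2 : (C * (0 * ‖fc‖ + (‖gc‖ + 0) * 0)) ^ 2 < δ / 9 := by
      simp; positivity
    have h3 := (h1.eventually (gt_mem_nhds h2)).and self_mem_nhdsWithin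
    obtain ⟨ε, h4, h5⟩ := h3.exists
    exact ⟨ε, h5, h4.le⟩
  obtain ⟨g', hg', hgd⟩ := hgc ε hε
  obtain ⟨f', hf', hfd⟩ := hfc ε hε
  refine ⟨fun v => Λ (R v g') (S v f'), trig_left R S hR hR0 hS hS0 Λ g' f' hg' hf',
    fun I hI => ?_⟩
  have e1 := mean_small (fun v => ‖Λ (R v gw) (S v f)‖ ^ 2) ((C * ‖gw‖ * ‖f‖) ^ 2) (fun v => by
      refine ⟨by positivity, ?_⟩
      have := hΛ (R v gw) (S v f)
      rw [(R v).norm_map, (S v).norm_map] at this
      exact pow_le_pow_left₀ (norm_nonneg _) this 2) B1 hB1 P (δ / 18) (fun v => by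
      have h1 := hb1 ((Λ.flip (S v f)).comp (R v).toContinuousLinearMap)
      have h2 : ‖(Λ.flip (S v f)).comp (R v).toContinuousLinearMap‖ ^ 2 ≤ N1 := by
        have h3 : ‖(Λ.flip (S v f)).comp (R v).toContinuousLinearMap‖ ≤ C * ‖f‖ := by
          refine ContinuousLinearMap.opNorm_le_bound _ (by positivity) fun x => ?_
          show ‖Λ (R v x) (S v f)‖ ≤ _
          refine (hΛ _ _).trans (le_of_eq ?_)
          rw [(R v).norm_map, (S v).norm_map]; ring
        have h4 := pow_le_pow_left₀ (norm_nonneg _) h3 2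
        rw [hN1]; linarith
      have h5 : ∀ k, ‖((Λ.flip (S v f)).comp (R v).toContinuousLinearMap) (R k gw)‖ ^ 2 =
          ‖Λ (R (v + P k) gw) (S (v + P k) f)‖ ^ 2 := by
        intro k
        rw [hRP, hSP]
        rfl
      simp only [h5] at h1
      refine h1.trans ?_
      gcongr
      calc δ / (18 * N1) * _ ≤ δ / (18 * N1) * N1 := by gcongr
        _ = δ / 18 := by field_simp) I hI (δ / 18) (by positivity)
  have e2 := mean_small (fun v => ‖Λ (R v gc) (S v fw)‖ ^ 2) ((C * ‖gc‖ * ‖fw‖) ^ 2) (fun v => by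
      refine ⟨by positivity, ?_⟩
      have := hΛ (R v gc) (S v fw)
      rw [(R v).norm_map, (S v).norm_map] at this
      exact pow_le_pow_left₀ (norm_nonneg _) this 2) B2 hB2 Q (δ / 18) (fun v => by
      have h1 := hb2 ((Λ (R v gc)).comp (S v).toContinuousLinearMap)
      have h2 : ‖(Λ (R v gc)).comp (S v).toContinuousLinearMap‖ ^ 2 ≤ N2 := by
        have h3 : ‖(Λ (R v gc)).comp (S v).toContinuousLinearMap‖ ≤ C * ‖gc‖ := by
          refine ContinuousLinearMap.opNorm_le_bound _ (by positivity) fun x => ?_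
          show ‖Λ (R v gc) (S v x)‖ ≤ _
          refine (hΛ _ _).trans (le_of_eq ?_)
          rw [(R v).norm_map, (S v).norm_map]
        have h4 := pow_le_pow_left₀ (norm_nonneg _) h3 2
        rw [hN2]; linarith
      have h5 : ∀ k, ‖((Λ (R v gc)).comp (S v).toContinuousLinearMap) (S k fw)‖ ^ 2 =
          ‖Λ (R (v + Q k) gc) (S (v + Q k) fw)‖ ^ 2 := by
        intro k
        rw [hRQ, hSQ]
        rfl
      simp only [h5] at h1
      refine h1.trans ?_
      gcongr
      calc δ / (18 * N2) * _ ≤ δ / (18 * N2) * N2 := by gcongr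
        _ = δ / 18 := by field_simp) I hI (δ / 18) (by positivity)
  filter_upwards [e1, e2] with j h1 h2
  have h3 : ∀ v ∈ I j, ‖Λ (R v g) (S v f) - Λ (R v g') (S v f')‖ ^ 2 ≤
      3 * ‖Λ (R v gw) (S v f)‖ ^ 2 + 3 * ‖Λ (R v gc) (S v fw)‖ ^ 2 + δ / 3 := by
    intro v _
    have h4 : Λ (R v g) (S v f) - Λ (R v g') (S v f') = Λ (R v gw) (S v f) +
        Λ (R v gc) (S v fw) + (Λ (R v (gc - g')) (S v fc) + Λ (R v g') (S v (fc - f'))) := by
      have h5 : Λ (R v g) (S v f) = Λ (R v gc) (S v f) + Λ (R v gw) (S v f) := by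
        conv_lhs => rw [hg]
        simp
      have h6 : Λ (R v gc) (S v f) = Λ (R v gc) (S v fc) + Λ (R v gc) (S v fw) := by
        conv_lhs => rw [hf]
        simp
      rw [h5, h6]
      simp only [map_sub, sub_apply]
      ring
    have h7 : ‖Λ (R v (gc - g')) (S v fc) + Λ (R v g') (S v (fc - f'))‖ ≤
        C * (ε * ‖fc‖ + (‖gc‖ + ε) * ε) := by
      have h8 := hΛ (R v (gc - g')) (S v fc)
      have h9 := hΛ (R v g') (S v (fc - f'))
      rw [(R v).norm_map, (S v).norm_map] at h8 h9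
      have h10 : ‖g'‖ ≤ ‖gc‖ + ε := by
        have : g' = gc - (gc - g') := by abel
        rw [this]
        exact (norm_sub_le _ _).trans (by gcongr)
      calc _ ≤ _ := norm_add_le _ _
        _ ≤ C * ε * ‖fc‖ + C * (‖gc‖ + ε) * ε := by
            apply add_le_add
            · exact h8.trans (by gcongr)
            · exact h9.trans (by gcongr)
        _ = _ := by ring
    rw [h4]
    set a := ‖Λ (R v gw) (S v f)‖ with ha
    set b := ‖Λ (R v gc) (S v fw)‖ with hb
    set c := ‖Λ (R v (gc - g')) (S v fc) + Λ (R v g') (S v (fc - f'))‖ with hc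
    have h11 := norm_add₃_le (a := Λ (R v gw) (S v f)) (b := Λ (R v gc) (S v fw))
      (c := Λ (R v (gc - g')) (S v fc) + Λ (R v g') (S v (fc - f')))
    rw [← ha, ← hb, ← hc] at h11
    have h12 := pow_le_pow_left₀ (norm_nonneg _) h11 2
    have h13 := (pow_le_pow_left₀ (norm_nonneg _) h7 2).trans hεb
    rw [← hc] at h13
    nlinarith [sq_nonneg (a - b), sq_nonneg (b - c), sq_nonneg (a - c)]
  have h14 := Finset.sum_le_sum h3
  rw [Finset.sum_add_distrib, Finset.sum_add_distrib, ← Finset.mul_sum, ← Finset.mul_sum,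
    Finset.sum_const, nsmul_eq_mul] at h14
  refine h14.trans ?_
  have h15 : (0 : ℝ) ≤ (I j).card := Nat.cast_nonneg _
  nlinarith

end KS6Nil
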