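import Mathlib

open MeasureTheory Filter Topology ENNReal
open scoped Manifold ContDiff

namespace KS6Nil

/-- The function `a` on `ℤ^d` (only its values on `ℕ^d`, `ℕ = {1, 2, ...}`, matter) is an `s`-step
nilsequence in `d` variables: `a v = Ψ (τ₁^(v₁) ⋯ τ_d^(v_d) e_Y)` for `v` in `ℕ^d`, where `G` is a (real, finite
dimensional) Lie group, nilpotent of class at most `s`, `Γ` a discrete cocompact subgroup, `Y = G / Γ`,
`Ψ` a continuous function on `Y`, and `τ₁, …, τ_d` are commuting elements of `G`. -/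
def IsNilseq {d : ℕ} (s : ℕ) (a : (Fin d → ℤ) → ℂ) : Prop :=
  ∃ (E : Type) (_ : NormedAddCommGroup E) (_ : NormedSpace ℝ E) (_ : FiniteDimensional ℝ E)
    (G : Type) (_ : Group G) (_ : TopologicalSpace G) (_ : T2Space G)
    (_ : SecondCountableTopology G) (_ : ChartedSpace E G) (_ : LieGroup 𝓘(ℝ, E) ∞ G)
    (_ : Group.IsNilpotent G) (Γ : Subgroup G) (_ : DiscreteTopology Γ)
    (_ : CompactSpace (G ⧸ Γ)) (Ψ : C(G ⧸ Γ, ℂ)) (τ : Fin d → G),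
    Group.nilpotencyClass G ≤ s ∧ (∀ i j, Commute (τ i) (τ j)) ∧
      ∀ v : Fin d → ℤ, (∀ i, 1 ≤ v i) →
        a v = Ψ (((List.ofFn fun i => τ i ^ v i).prod : G) : G ⧸ Γ)

/-- Følner sequences in `ℕ^d`: nonempty finite subsets `I_j` of `ℕ^d` with
`|(I_j + k) ∆ I_j| / |I_j| → 0` for every `k` in `ℤ^d`. -/
def IsFolner {d : ℕ} (I : ℕ → Finset (Fin d → ℤ)) : Prop :=
  (∀ j, (I j).Nonempty) ∧ (∀ j, ∀ v ∈ I j, ∀ i, 1 ≤ v i) ∧
    ∀ k : Fin d → ℤ, Tendsto (fun j => ((symmDiff ((I j).image (· + k)) (I j)).card : ℝ) /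
      ((I j).card : ℝ)) atTop (𝓝 0)

/-- The seminorm `‖a‖₂`: the square root of the supremum over all Følner sequences `(I_j)` in `ℕ^d`
of the upper limit of the averages of `|a|²` over `I_j`. -/
noncomputable def seminormTwo {d : ℕ} (a : (Fin d → ℤ) → ℂ) : ℝ≥0∞ :=
  (⨆ I : {I : ℕ → Finset (Fin d → ℤ) // IsFolner I},
    limsup (fun j => (∑ v ∈ I.1 j, ‖a v‖ₑ ^ 2) / ((I.1 j).card : ℝ≥0∞)) atTop) ^ (1 / 2 : ℝ)

/-- The sequence `a` is an approximate `s`-step nilsequence in `d` variables: for every `ε > 0` one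
can write `a = a_st + a_er` on `ℕ^d` with `a_st` an `s`-step nilsequence in `d` variables,
`‖a_st‖_∞ ≤ ‖a‖_∞` and `‖a_er‖₂ ≤ ε`. -/
def IsApproxNilseq {d : ℕ} (s : ℕ) (a : (Fin d → ℤ) → ℂ) : Prop :=
  ∀ ε : ℝ, 0 < ε → ∃ ast aer : (Fin d → ℤ) → ℂ,
    (∀ v, (∀ i, 1 ≤ v i) → a v = ast v + aer v) ∧ IsNilseq s ast ∧
      (∀ C : ℝ, (∀ v, (∀ i, 1 ≤ v i) → ‖a v‖ ≤ C) → ∀ v, (∀ i, 1 ≤ v i) → ‖ast v‖ ≤ C) ∧
        seminormTwo aer ≤ ENNReal.ofReal ε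

/-- The correlation sequence `v ↦ ∫ f · T^v g · T^(A v) h dμ` of an action `T` of `ℤ^d`. -/
noncomputable def corr {d : ℕ} {X : Type*} [MeasurableSpace X] (μ : Measure X)
    (T : (Fin d → ℤ) → X → X) (A : Matrix (Fin d) (Fin d) ℤ) (f g h : X → ℂ)
    (v : Fin d → ℤ) : ℂ :=
  ∫ x, f x * g (T v x) * h (T (A.mulVec v) x) ∂μ

end KS6Nil
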