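import Mathlib

open Filter Topology
open scoped InnerProductSpace ComplexConjugate

namespace KS6Nil

variable {H : Type*} [NormedAddCommGroup H] [InnerProductSpace ℂ H]

/-- commuting maps leaving a finite dimensional space invariant have a joint eigenvector in it -/
theorem exists_joint {ι : Type*} (π : ι → Module.End ℂ H)
    (hcomm : ∀ i j x, π i (π j x) = π j (π i x)) (n : ℕ) :
    ∀ (W : Submodule ℂ H), FiniteDimensional ℂ W → Module.finrank ℂ W = n → W ≠ ⊥ →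
      (∀ i, ∀ x ∈ W, π i x ∈ W) → ∃ e ∈ W, e ≠ 0 ∧ ∀ i, ∃ c : ℂ, π i e = c • e := by
  induction n using Nat.strong_induction_on with
  | _ n ih =>
    intro W hfd hrk hne hinv
    by_cases h : ∀ i, ∃ c : ℂ, ∀ x ∈ W, π i x = c • x
    · obtain ⟨e, he, he0⟩ := Submodule.exists_mem_ne_zero_of_ne_bot hne
      refine ⟨e, he, he0, fun i => ?_⟩
      obtain ⟨c, hc⟩ := h i
      exact ⟨c, hc e he⟩
    · push Not at h
      obtain ⟨i, hi⟩ := h
      have hnt : Nontrivial W := (Submodule.nontrivial_iff_ne_bot).2 hne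
      let f : Module.End ℂ W := (π i).restrict (hinv i)
      obtain ⟨c, hc⟩ := Module.End.exists_eigenvalue f
      obtain ⟨w, hw⟩ := hc.exists_hasEigenvector
      let W' : Submodule ℂ H := W ⊓ Module.End.eigenspace (π i) c
      have hw1 : π i (w : H) = c • (w : H) := by
        have := hw.apply_eq_smul
        have h2 := congrArg (Subtype.val) this
        simpa [f] using h2
      have hw' : (w : H) ∈ W' := ⟨w.2, Module.End.mem_eigenspace_iff.2 hw1⟩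
      have hne' : W' ≠ ⊥ := by
        intro hbot
        rw [hbot, Submodule.mem_bot] at hw'
        exact hw.2 (Subtype.ext hw')
      have hlt : W' < W := by
        refine lt_of_le_of_ne inf_le_left ?_
        intro heq
        obtain ⟨x, hx, hxc⟩ := hi c
        rw [← heq] at hx
        exact hxc (Module.End.mem_eigenspace_iff.1 hx.2)
      have hfd' : FiniteDimensional ℂ W' := Submodule.finiteDimensional_of_le hlt.le
      have hrk' : Module.finrank ℂ W' < n := by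
        rw [← hrk]
        exact Submodule.finrank_lt_finrank_of_lt hlt
      obtain ⟨e, he, he0, hee⟩ := ih _ hrk' W' hfd' rfl hne' (by
        rintro j x ⟨hx1, hx2⟩
        refine ⟨hinv j x hx1, Module.End.mem_eigenspace_iff.2 ?_⟩
        rw [hcomm, Module.End.mem_eigenspace_iff.1 hx2, map_smul])
      exact ⟨e, he.1, he0, hee⟩

/-- a bound by the Gram matrix -/
theorem gram_bound {ι : Type*} (B : Finset ι) (x : ι → H) (l : H →L[ℂ] ℂ) :
    (∑ k ∈ B, ‖l (x k)‖ ^ 2) ^ 2 ≤ ‖l‖ ^ 4 * ∑ k ∈ B, ∑ j ∈ B, ‖⟪x j, x k⟫_ℂ‖ ^ 2 := by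
  set S := ∑ k ∈ B, ‖l (x k)‖ ^ 2 with hS
  set G := ∑ k ∈ B, ∑ j ∈ B, ‖⟪x j, x k⟫_ℂ‖ ^ 2 with hG
  have hS0 : 0 ≤ S := by positivity
  have hG0 : 0 ≤ G := by positivity
  set y := ∑ k ∈ B, (conj (l (x k))) • x k with hy
  have h1 : (S : ℂ) = l y := by
    rw [hy, map_sum, hS]
    push_cast
    refine Finset.sum_congr rfl fun k _ => ?_
    rw [map_smul, smul_eq_mul, ← Complex.normSq_eq_conj_mul_self, Complex.normSq_eq_norm_sq]
    push_cast
    rfl
  have h2 : S ≤ ‖l‖ * ‖y‖ := by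
    have h3 := l.le_opNorm y
    rw [← h1, Complex.norm_real, Real.norm_of_nonneg hS0] at h3
    exact h3
  have h4 : ‖y‖ ^ 2 ≤ ∑ k ∈ B, ∑ j ∈ B, (‖l (x k)‖ * ‖l (x j)‖) * ‖⟪x j, x k⟫_ℂ‖ := by
    have h5 : ((‖y‖ ^ 2 : ℝ) : ℂ) = ∑ k ∈ B, ∑ j ∈ B,
        (conj (l (x k)) * l (x j)) * ⟪x j, x k⟫_ℂ := by
      have h6 : ⟪y, y⟫_ℂ = ((‖y‖ ^ 2 : ℝ) : ℂ) := by
        rw [inner_self_eq_norm_sq_to_K]; norm_cast
      rw [← h6, hy, inner_sum]
      refine Finset.sum_congr rfl fun k _ => ?_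
      rw [sum_inner]
      refine Finset.sum_congr rfl fun j _ => ?_
      rw [inner_smul_left, inner_smul_right, Complex.conj_conj]
      ring
    have h7 : ‖y‖ ^ 2 = ‖((‖y‖ ^ 2 : ℝ) : ℂ)‖ := by
      rw [Complex.norm_real, Real.norm_of_nonneg (by positivity)]
    rw [h7, h5]
    refine (norm_sum_le _ _).trans (Finset.sum_le_sum fun k _ => ?_)
    refine (norm_sum_le _ _).trans (Finset.sum_le_sum fun j _ => ?_)
    rw [norm_mul, norm_mul, RCLike.norm_conj]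
  have h8 : (∑ k ∈ B, ∑ j ∈ B, (‖l (x k)‖ * ‖l (x j)‖) * ‖⟪x j, x k⟫_ℂ‖) ^ 2 ≤ S ^ 2 * G := by
    rw [← Finset.sum_product' B B (fun k j => (‖l (x k)‖ * ‖l (x j)‖) * ‖⟪x j, x k⟫_ℂ‖)]
    refine (Finset.sum_mul_sq_le_sq_mul_sq _ _ _).trans ?_
    apply le_of_eq
    congr 1
    · rw [Finset.sum_product' B B (fun k j => (‖l (x k)‖ * ‖l (x j)‖) ^ 2), hS, sq, Finset.sum_mul_sum]
      simp only [mul_pow]
    · rw [hG, Finset.sum_product' B B (fun k j => ‖⟪x j, x k⟫_ℂ‖ ^ 2)]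
  have h9 : ‖y‖ ^ 4 ≤ S ^ 2 * G := by
    calc ‖y‖ ^ 4 = (‖y‖ ^ 2) ^ 2 := by ring
      _ ≤ _ := pow_le_pow_left₀ (by positivity) h4 2
      _ ≤ _ := h8
  have h10 : S ^ 4 ≤ ‖l‖ ^ 4 * (S ^ 2 * G) := by
    calc S ^ 4 ≤ (‖l‖ * ‖y‖) ^ 4 := pow_le_pow_left₀ hS0 h2 4
      _ = ‖l‖ ^ 4 * ‖y‖ ^ 4 := by ring
      _ ≤ _ := by gcongr
  rcases hS0.eq_or_lt with h | h
  · rw [← h, zero_pow two_ne_zero]; positivity
  · have h11 : S ^ 2 * S ^ 2 ≤ S ^ 2 * (‖l‖ ^ 4 * G) := by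
      calc S ^ 2 * S ^ 2 = S ^ 4 := by ring
        _ ≤ _ := h10
        _ = _ := by ring
    exact le_of_mul_le_mul_left h11 (by positivity)

end KS6Nil
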