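import Mathlib

open Filter Topology

namespace KS6Nil

/-- the box `[1, n+1]^d` -/
noncomputable def box (d n : ℕ) : Finset (Fin d → ℤ) :=
  Fintype.piFinset fun _ => Finset.Icc (1 : ℤ) ((n : ℤ) + 1)

theorem box_card (d n : ℕ) : (box d n).card = (n + 1) ^ d := by
  unfold box
  rw [Fintype.card_piFinset]
  simp

theorem box_nonempty (d n : ℕ) : (box d n).Nonempty := by
  rw [← Finset.card_pos, box_card]
  positivity

theorem mem_box (d n : ℕ) (v : Fin d → ℤ) : v ∈ box d n ↔ ∀ i, 1 ≤ v i ∧ v i ≤ (n : ℤ) + 1 := by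
  unfold box
  simp [Fintype.mem_piFinset]

theorem symm_card {G : Type*} [DecidableEq G] (A B : Finset G) (h : A.card = B.card) :
    ((symmDiff A B).card : ℝ) = 2 * (B.card - (A ∩ B).card) := by
  have h1 := Finset.card_sdiff_add_card_inter A B
  have h2 := Finset.card_sdiff_add_card_inter B A
  rw [Finset.inter_comm B A] at h2
  have h3 : (symmDiff A B).card = (A \ B).card + (B \ A).card := by
    show ((A \ B) ∪ (B \ A)).card = _
    rw [Finset.card_union_of_disjoint]
    exact disjoint_sdiff_sdiff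
  have h1' : ((A \ B).card : ℝ) + (A ∩ B).card = A.card := by exact_mod_cast h1
  have h2' : ((B \ A).card : ℝ) + (A ∩ B).card = B.card := by exact_mod_cast h2
  have h3' : ((symmDiff A B).card : ℝ) = (A \ B).card + (B \ A).card := by exact_mod_cast h3
  have h' : (A.card : ℝ) = B.card := by exact_mod_cast h
  linarith

theorem box_folner (d : ℕ) (k : Fin d → ℤ) :
    Tendsto (fun n => ((symmDiff ((box d n).image (· + k)) (box d n)).card : ℝ) /
      ((box d n).card : ℝ)) atTop (𝓝 0) := by
  have himg : ∀ n, (box d n).image (· + k) =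
      Fintype.piFinset fun i => Finset.Icc (1 + k i) ((n : ℤ) + 1 + k i) := by
    intro n
    ext v
    simp only [Finset.mem_image, mem_box, Fintype.mem_piFinset, Finset.mem_Icc]
    constructor
    · rintro ⟨w, hw, rfl⟩ i
      have := hw i
      simp only [Pi.add_apply]
      omega
    · intro h
      refine ⟨v - k, fun i => ?_, by abel⟩
      have := h i
      simp only [Pi.sub_apply]
      omega
  have hinter : ∀ n, (box d n).image (· + k) ∩ box d n =
      Fintype.piFinset fun i => Finset.Icc (1 + max (k i) 0) ((n : ℤ) + 1 + min (k i) 0) := by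
    intro n
    rw [himg]
    ext v
    simp only [Finset.mem_inter, mem_box, Fintype.mem_piFinset, Finset.mem_Icc]
    constructor
    · rintro ⟨h1, h2⟩ i
      have := h1 i
      have := h2 i
      omega
    · intro h
      refine ⟨fun i => ?_, fun i => ?_⟩ <;>
      · have := h i
        omega
  have hc : ∀ n, ((symmDiff ((box d n).image (· + k)) (box d n)).card : ℝ) /
      ((box d n).card : ℝ) =
      2 * (1 - ∏ i, ((((n : ℤ) + 1 - |k i|).toNat : ℝ) / ((n : ℝ) + 1))) := by
    intro n
    rw [symm_card _ _ (Finset.card_image_of_injective _ (add_left_injective k)), hinter,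
      Fintype.card_piFinset, box_card]
    have h1 : ∀ i, (Finset.Icc (1 + max (k i) 0) ((n : ℤ) + 1 + min (k i) 0)).card =
        ((n : ℤ) + 1 - |k i|).toNat := by
      intro i
      rw [Int.card_Icc]
      congr 1
      rcases le_total (k i) 0 with h | h
      · rw [max_eq_right h, min_eq_left h, abs_of_nonpos h]; ring
      · rw [max_eq_left h, min_eq_right h, abs_of_nonneg h]; ring
    simp only [h1]
    rw [Finset.prod_div_distrib]
    simp only [Finset.prod_const, Finset.card_univ, Fintype.card_fin]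
    have hn : ((n : ℝ) + 1) ^ d ≠ 0 := by positivity
    push_cast
    field_simp
  simp only [hc]
  have h2 : Tendsto (fun n : ℕ => ∏ i : Fin d, ((((n : ℤ) + 1 - |k i|).toNat : ℝ) / ((n : ℝ) + 1)))
      atTop (𝓝 (∏ i : Fin d, (1 : ℝ))) := by
    refine tendsto_finsetProd _ fun i _ => ?_
    have h3 : Tendsto (fun n : ℕ => 1 - (|k i| : ℝ) * (1 / ((n : ℝ) + 1))) atTop
        (𝓝 (1 - (|k i| : ℝ) * 0)) :=
      tendsto_const_nhds.sub (tendsto_one_div_add_atTop_nhds_zero_nat.const_mul _)
    rw [mul_zero, sub_zero] at h3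
    refine h3.congr' ?_
    filter_upwards [eventually_ge_atTop (k i).natAbs] with n hn
    have h4 : (0 : ℤ) ≤ (n : ℤ) + 1 - |k i| := by
      rw [Int.abs_eq_natAbs]; omega
    have h5 : (((((n : ℤ) + 1 - |k i|).toNat : ℤ)) : ℝ) = (((n : ℤ) + 1 - |k i| : ℤ) : ℝ) := by
      rw [Int.toNat_of_nonneg h4]
    have h6 : ((((n : ℤ) + 1 - |k i|).toNat : ℝ)) = (n : ℝ) + 1 - |(k i : ℝ)| := by
      rw [← Int.cast_natCast (R := ℝ), h5]; push_cast; ring
    rw [h6]
    have hn0 : ((n : ℝ) + 1) ≠ 0 := by positivity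
    field_simp
  have h7 := (tendsto_const_nhds (x := (1 : ℝ))).sub h2
  have h8 := h7.const_mul 2
  simpa using h8

/-- shifting a sum -/
theorem shift_sum {G E : Type*} [AddGroup G] [DecidableEq G] [NormedAddCommGroup E]
    (I : Finset G) (k : G) (F : G → E) (M : ℝ)
    (hM : ∀ v ∈ I.image (· + k) ∪ I, ‖F v‖ ≤ M) :
    ‖∑ v ∈ I, F (v + k) - ∑ v ∈ I, F v‖ ≤ M * ((symmDiff (I.image (· + k)) I).card : ℝ) := by
  have h1 : ∑ v ∈ I, F (v + k) = ∑ v ∈ I.image (· + k), F v := by
    rw [Finset.sum_image]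
    intro a _ b _ h
    exact add_left_injective k h
  rw [h1]
  have h2 := Finset.sum_sdiff_sub_sum_sdiff (s₂ := I.image (· + k)) (s₁ := I) (f := F)
  rw [← h2]
  have h3 : ‖∑ v ∈ I.image (· + k) \ I, F v‖ ≤ (I.image (· + k) \ I).card * M := by
    refine (norm_sum_le _ _).trans ?_
    rw [← nsmul_eq_mul]
    refine Finset.sum_le_card_nsmul _ _ _ fun v hv => ?_
    exact hM v (Finset.mem_union_left _ (Finset.mem_sdiff.1 hv).1)
  have h4 : ‖∑ v ∈ I \ I.image (· + k), F v‖ ≤ (I \ I.image (· + k)).card * M := by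
    refine (norm_sum_le _ _).trans ?_
    rw [← nsmul_eq_mul]
    refine Finset.sum_le_card_nsmul _ _ _ fun v hv => ?_
    exact hM v (Finset.mem_union_right _ (Finset.mem_sdiff.1 hv).1)
  have h5 : (symmDiff (I.image (· + k)) I).card = (I.image (· + k) \ I).card +
      (I \ I.image (· + k)).card := by
    show ((I.image (· + k) \ I) ∪ (I \ I.image (· + k))).card = _
    rw [Finset.card_union_of_disjoint]
    exact disjoint_sdiff_sdiff
  have h6 := norm_sub_le (∑ v ∈ I.image (· + k) \ I, F v) (∑ v ∈ I \ I.image (· + k), F v)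
  rw [h5]
  push_cast
  linarith

end KS6Nil
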