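import Pool.Agent.KS6_1.Nil.Wm

open Filter Topology
open scoped InnerProductSpace ComplexConjugate

namespace KS6Nil

variable {H : Type*} [NormedAddCommGroup H] [InnerProductSpace ℂ H]

/-- a vector orthogonal to all joint eigenvectors of a unitary representation of `ℤ^d` is weakly
mixing, uniformly on bounded sets of functionals -/
theorem weak_mixing [CompleteSpace H] {d : ℕ} (π : (Fin d → ℤ) → H →ₗᵢ[ℂ] H)
    (hadd : ∀ u v x, π (u + v) x = π u (π v x)) (h0 : ∀ x, π 0 x = x) (g : H)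
    (hg : ∀ e : H, (∀ k, ∃ c : ℂ, π k e = c • e) → ⟪g, e⟫_ℂ = 0) (ε : ℝ) (hε : 0 < ε) :
    ∃ B : Finset (Fin d → ℤ), B.Nonempty ∧
      ∀ l : H →L[ℂ] ℂ, ∑ k ∈ B, ‖l (π k g)‖ ^ 2 ≤ ε * ‖l‖ ^ 2 * B.card := by
  by_contra hcon
  push Not at hcon
  have step : ∀ n, ∃ j : Fin d → ℤ,
      ε ^ 2 * ((box d n).card : ℝ) ≤ ∑ k ∈ box d n, ‖⟪π j g, π k g⟫_ℂ‖ ^ 2 := by
    intro n
    obtain ⟨l, hl⟩ := hcon (box d n) (box_nonempty d n)
    set B := box d n with hB
    have hBc : (0 : ℝ) < B.card := by exact_mod_cast (box_nonempty d n).card_pos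
    by_contra hno
    push Not at hno
    have h1 := gram_bound B (fun k => π k g) l
    set S := ∑ k ∈ B, ‖l (π k g)‖ ^ 2 with hS
    have h2 : ∑ k ∈ B, ∑ j ∈ B, ‖⟪π j g, π k g⟫_ℂ‖ ^ 2 ≤ B.card * (ε ^ 2 * (B.card : ℝ)) := by
      rw [Finset.sum_comm, ← nsmul_eq_mul]
      exact Finset.sum_le_card_nsmul _ _ _ fun j _ => (hno j).le
    have h3 : (ε * ‖l‖ ^ 2 * B.card) ^ 2 < S ^ 2 := by
      apply pow_lt_pow_left₀ hl (by positivity) two_ne_zero
    have h4 : S ^ 2 ≤ ‖l‖ ^ 4 * (B.card * (ε ^ 2 * (B.card : ℝ))) :=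
      h1.trans (by gcongr)
    have h5 : (ε * ‖l‖ ^ 2 * B.card) ^ 2 = ‖l‖ ^ 4 * (B.card * (ε ^ 2 * (B.card : ℝ))) := by ring
    linarith
  choose j hj using step
  set C : ℕ → Finset (Fin d → ℤ) := fun n => (box d n).image (· + (-j n)) with hC
  have hCcard : ∀ n, (C n).card = (box d n).card := fun n =>
    Finset.card_image_of_injective _ (add_left_injective _)
  have hCpos : ∀ n, (0 : ℝ) < (C n).card := fun n => by
    rw [hCcard]; exact_mod_cast (box_nonempty d n).card_pos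
  have hCf : ∀ t : Fin d → ℤ, Tendsto (fun n => ((symmDiff ((C n).image (· + t)) (C n)).card : ℝ) /
      ((C n).card : ℝ)) atTop (𝓝 0) := by
    intro t
    refine (box_folner d t).congr fun n => ?_
    rw [hCcard]
    congr 2
    have h1 : (C n).image (· + t) = ((box d n).image (· + t)).image (· + (-j n)) := by
      rw [hC]
      simp only [Finset.image_image]
      congr 1
      funext v
      simp only [Function.comp]
      abel
    rw [h1, hC]
    simp only
    rw [← Finset.image_symmDiff _ _ (add_left_injective _),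
      Finset.card_image_of_injective _ (add_left_injective _)]
  have hiso : ∀ (t : Fin d → ℤ) (ξ η : H), ⟪π t ξ, π t η⟫_ℂ = ⟪ξ, η⟫_ℂ :=
    fun t ξ η => (π t).inner_map_map ξ η
  have hx : ∀ k, ‖π k g‖ = ‖g‖ := fun k => (π k).norm_map g
  set 𝒰 : Ultrafilter ℕ := hyperfilter ℕ with h𝒰
  have hle : (𝒰 : Filter ℕ) ≤ atTop := Nat.hyperfilter_le_atTop
  obtain ⟨Φ, hΦ⟩ := exists_op C (fun k => π k g) ‖g‖ hx 𝒰
  have hA : ∀ ξ η, ‖⟪Φ ξ, η⟫_ℂ‖ ^ 2 ≤ (⟪Φ ξ, ξ⟫_ℂ).re * (‖g‖ ^ 2 * ‖η‖ ^ 2) := by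
    intro ξ η
    refine le_of_tendsto_of_tendsto ((hΦ ξ η).norm.pow 2)
      ((Complex.continuous_re.continuousAt.tendsto.comp (hΦ ξ ξ)).mul_const _)
      (Filter.Eventually.of_forall fun n => ?_)
    exact form_cs (C n) (fun k => π k g) ‖g‖ hx ξ η
  have hB : ∀ s : Finset H, Orthonormal ℂ (Subtype.val : s → H) →
      ∑ e ∈ s, (⟪Φ e, e⟫_ℂ).re ≤ ‖g‖ ^ 2 := by
    intro s hs
    refine le_of_tendsto (tendsto_finsetSum _ fun e _ =>
      (Complex.continuous_re.continuousAt.tendsto.comp (hΦ e e)))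
      (Filter.Eventually.of_forall fun n => ?_)
    exact form_trace (C n) (fun k => π k g) ‖g‖ hx s hs
  have hcomp : IsCompactOperator Φ := compact_of_trace Φ (‖g‖ ^ 2) (by positivity) hA hB
  have hconj : ∀ ξ η, ⟪Φ η, ξ⟫_ℂ = conj ⟪Φ ξ, η⟫_ℂ := by
    intro ξ η
    refine tendsto_nhds_unique (hΦ η ξ) ?_
    have h1 := (Complex.continuous_conj.tendsto _).comp (hΦ ξ η)
    refine h1.congr fun n => ?_
    simp only [Function.comp]
    rw [← form_conj]
  have hsym : (Φ : H →ₗ[ℂ] H).IsSymmetric := by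
    intro ξ η
    show ⟪Φ ξ, η⟫_ℂ = ⟪ξ, Φ η⟫_ℂ
    rw [hconj η ξ, inner_conj_symm]
  have hinv : ∀ t ξ η, ⟪Φ (π t ξ), π t η⟫_ℂ = ⟪Φ ξ, η⟫_ℂ := by
    intro t ξ η
    have h1 : Tendsto (fun n => form (C n) (fun k => π k g) (π t ξ) (π t η) -
        form (C n) (fun k => π k g) ξ η) 𝒰 (𝓝 0) := by
      have h2 : Tendsto (fun n => (‖g‖ ^ 2 * ‖ξ‖ * ‖η‖) *
          (((symmDiff ((C n).image (· + (-t))) (C n)).card : ℝ) / ((C n).card : ℝ))) 𝒰 (𝓝 0) := by
        have := ((hCf (-t)).mono_left hle).const_mul (‖g‖ ^ 2 * ‖ξ‖ * ‖η‖)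
        rwa [mul_zero] at this
      refine squeeze_zero_norm (fun n => ?_) h2
      set F : (Fin d → ℤ) → ℂ := fun k => ⟪ξ, π k g⟫_ℂ * ⟪π k g, η⟫_ℂ with hF
      have h3 : form (C n) (fun k => π k g) (π t ξ) (π t η) = ((C n).card : ℂ)⁻¹ *
          ∑ k ∈ C n, F (k + (-t)) := by
        unfold form
        congr 1
        refine Finset.sum_congr rfl fun k _ => ?_
        have h4 : π k g = π t (π (k + (-t)) g) := by
          rw [← hadd]; congr 2; abel
        show ⟪π t ξ, π k g⟫_ℂ * ⟪π k g, π t η⟫_ℂ = F (k + (-t))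
        rw [h4, hiso, hiso]
      rw [h3]
      unfold form
      rw [← mul_sub, norm_mul, norm_inv, Complex.norm_natCast]
      have h5 := shift_sum (C n) (-t) F (‖g‖ ^ 2 * ‖ξ‖ * ‖η‖) (by
        intro v _
        rw [hF]
        simp only [norm_mul]
        have h6 := norm_inner_le_norm (𝕜 := ℂ) ξ (π v g)
        have h7 := norm_inner_le_norm (𝕜 := ℂ) (π v g) η
        rw [hx v] at h6 h7
        calc _ ≤ (‖ξ‖ * ‖g‖) * (‖g‖ * ‖η‖) :=
              mul_le_mul h6 h7 (norm_nonneg _) ((norm_nonneg _).trans h6)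
          _ = _ := by ring)
      refine (mul_le_mul_of_nonneg_left h5 (inv_nonneg.2 (Nat.cast_nonneg _))).trans (le_of_eq ?_)
      rw [div_eq_mul_inv]; ring
    have h8 := (hΦ (π t ξ) (π t η)).sub (hΦ ξ η)
    have h9 := tendsto_nhds_unique h1 h8
    exact (sub_eq_zero.1 h9.symm)
  have hcomm : ∀ t ξ, Φ (π t ξ) = π t (Φ ξ) := by
    intro t ξ
    refine ext_inner_right ℂ fun ζ => ?_
    have h1 : ζ = π t (π (-t) ζ) := by
      rw [← hadd, add_neg_cancel, h0]
    rw [h1, hinv, hiso]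
  have hne : Φ ≠ 0 := by
    intro hz
    have h1 := hΦ g g
    rw [hz] at h1
    simp only [zero_apply, inner_zero_left] at h1
    have h2 := Complex.continuous_re.continuousAt.tendsto.comp h1
    have h3 : ε ^ 2 ≤ (0 : ℂ).re := by
      refine ge_of_tendsto h2 (Filter.Eventually.of_forall fun n => ?_)
      simp only [Function.comp]
      rw [form_self, Complex.ofReal_re, inv_mul_eq_div, le_div_iff₀ (hCpos n), hCcard]
      refine (hj n).trans (le_of_eq ?_)
      rw [hC]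
      simp only
      rw [Finset.sum_image (fun a _ b _ h => add_left_injective _ h)]
      refine Finset.sum_congr rfl fun k _ => ?_
      congr 1
      have h4 : π k g = π (j n) (π (k + (-j n)) g) := by
        rw [← hadd]; congr 2; abel
      rw [h4, hiso, norm_inner_symm]
    simp only [Complex.zero_re] at h3
    have : 0 < ε ^ 2 := by positivity
    linarith
  have hev : ∃ μ, Module.End.HasEigenvalue (Φ : Module.End ℂ H) μ ∧ μ ≠ 0 := by
    by_contra h
    push Not at h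
    exact hne ((ContinuousLinearMap.eq_zero_of_forall_hasEigenvalue_eq_zero hcomp hsym).1 h)
  obtain ⟨μ, hμ, hμ0⟩ := hev
  have hfd := ContinuousLinearMap.finite_dimensional_eigenspace hcomp μ hμ0
  obtain ⟨e, he, he0, hee⟩ := exists_joint (fun k => (π k : H →ₗ[ℂ] H).restrictScalars ℂ)
    (by
      intro i j x
      show π i (π j x) = π j (π i x)
      rw [← hadd, ← hadd, add_comm]) _ (Module.End.eigenspace (Φ : Module.End ℂ H) μ) hfd rfl hμ
    (by
      intro k x hx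
      rw [Module.End.mem_eigenspace_iff] at hx ⊢
      show Φ (π k x) = μ • π k x
      rw [hcomm]
      have h1 : Φ x = μ • x := hx
      rw [h1, map_smul])
  have heig : Φ e = μ • e := Module.End.mem_eigenspace_iff.1 he
  have hgk : ∀ k, ⟪π k g, e⟫_ℂ = 0 := by
    intro k
    have h1 := hg e (fun k => hee k)
    obtain ⟨c, hc⟩ := hee (-k)
    have hc' : π (-k) e = c • e := hc
    have h2 : ⟪π k g, e⟫_ℂ = ⟪π (-k) (π k g), π (-k) e⟫_ℂ := (hiso _ _ _).symm
    rw [h2, ← hadd, neg_add_cancel, h0, hc', inner_smul_right, h1, mul_zero]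
  have hzero : ⟪Φ e, e⟫_ℂ = 0 := by
    refine tendsto_nhds_unique (hΦ e e) ?_
    refine tendsto_const_nhds.congr fun n => ?_
    unfold form
    simp [hgk]
  rw [heig, inner_smul_left, mul_eq_zero] at hzero
  rcases hzero with h | h
  · exact hμ0 (by simpa using h)
  · exact he0 (inner_self_eq_zero.1 h)

end KS6Nil
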