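import Pool.Agent.KS6_1.Nil.Defs
import Pool.Agent.KS6_1.Nil.Folner

open MeasureTheory Filter Topology ENNReal
open scoped Manifold ContDiff ComplexConjugate

namespace KS6Nil

/-- `k` times a unit vector -/
def un {d : ℕ} (i : Fin d) (k : ℤ) : Fin d → ℤ := Pi.single i k

theorem prod_shift {G : Type*} [CommGroup G] {d : ℕ} (τ : Fin d → G) (v : Fin d → ℤ) (i : Fin d)
    (k : ℤ) : (List.ofFn fun j => τ j ^ (v + un i k) j).prod =
      (List.ofFn fun j => τ j ^ v j).prod * τ i ^ k := by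
  rw [List.prod_ofFn, List.prod_ofFn]
  have h1 : ∀ j, τ j ^ (v + un i k) j = τ j ^ v j * τ j ^ un i k j :=
    fun j => by rw [Pi.add_apply, zpow_add]
  simp only [h1]
  rw [Finset.prod_mul_distrib]
  congr 1
  rw [Finset.prod_eq_single i]
  · unfold un; rw [Pi.single_eq_same]
  · intro j _ hj
    unfold un
    rw [Pi.single_eq_of_ne hj, zpow_zero]
  · intro h; exact absurd (Finset.mem_univ i) h

/-- recurrence of 1-step nilsequences along a coordinate -/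
theorem nilseq_recur {d : ℕ} (ψ : (Fin d → ℤ) → ℂ) (h : IsNilseq 1 ψ) (i : Fin d) (δ : ℝ)
    (hδ : 0 < δ) : ∃ φ : ℕ → ℕ, StrictMono φ ∧ ∀ a b, ∀ v : Fin d → ℤ, (∀ j, 1 ≤ v j) →
      ‖ψ (v + un i (φ a : ℤ)) - ψ (v + un i (φ b : ℤ))‖ ≤ δ := by
  obtain ⟨E, _, _, _, G, i1, i2, _, _, _, i3, i4, Γ, _, i5, Ψ, τ, hc, -, hψ⟩ := h
  have itop : IsTopologicalGroup G := topologicalGroup_of_lieGroup 𝓘(ℝ, E) ∞
  have hcomm : ∀ a b : G, a * b = b * a :=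
    fun a b => (commGroupOfNilpotencyClass hc).mul_comm a b
  have hprod : ∀ (v : Fin d → ℤ) (k : ℤ), (List.ofFn fun j => τ j ^ (v + un i k) j).prod =
      (List.ofFn fun j => τ j ^ v j).prod * τ i ^ k := fun v k =>
    @prod_shift G (commGroupOfNilpotencyClass hc) d τ v i k
  let F : G × (G ⧸ Γ) → ℝ := fun p => ‖Ψ (p.1 • p.2) - Ψ p.2‖
  have hF : Continuous F := by
    refine Continuous.norm (Continuous.sub ?_ ?_)
    · exact Ψ.continuous.comp continuous_smul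
    · exact Ψ.continuous.comp continuous_snd
  have hopen : IsOpen (F ⁻¹' Set.Iio (δ / 2)) := isOpen_Iio.preimage hF
  have hsub : ({1} : Set G) ×ˢ (Set.univ : Set (G ⧸ Γ)) ⊆ F ⁻¹' Set.Iio (δ / 2) := by
    rintro ⟨u, y⟩ ⟨hu, -⟩
    have hu1 : u = 1 := hu
    show ‖Ψ (u • y) - Ψ y‖ < δ / 2
    rw [hu1, one_smul, sub_self, norm_zero]
    linarith
  obtain ⟨U, V, hU, -, h1U, hV, hUV⟩ :=
    generalized_tube_lemma isCompact_singleton isCompact_univ hopen hsub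
  have hUd : ∀ u ∈ U, ∀ y : G ⧸ Γ, ‖Ψ (u • y) - Ψ y‖ < δ / 2 := by
    intro u hu y
    exact hUV (Set.mk_mem_prod hu (hV (Set.mem_univ y)))
  obtain ⟨y, hy⟩ := exists_clusterPt_of_compactSpace
    (Filter.map (fun k : ℕ => ((τ i ^ (k : ℤ) : G) : G ⧸ Γ)) atTop)
  obtain ⟨g, rfl⟩ := QuotientGroup.mk_surjective y
  have hnb : (fun u : G => ((u * g : G) : G ⧸ Γ)) '' U ∈ 𝓝 ((g : G) : G ⧸ Γ) := by
    have hop : IsOpen ((fun u : G => ((u * g : G) : G ⧸ Γ)) '' U) := by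
      have : (fun u : G => ((u * g : G) : G ⧸ Γ)) '' U =
          (QuotientGroup.mk : G → G ⧸ Γ) '' ((fun u : G => u * g) '' U) := by
        rw [Set.image_image]
      rw [this]
      exact QuotientGroup.isOpenMap_coe _ ((isOpenMap_mul_right g) _ hU)
    refine hop.mem_nhds ⟨1, h1U rfl, ?_⟩
    simp
  have hfr : ∃ᶠ k : ℕ in atTop, ((τ i ^ (k : ℤ) : G) : G ⧸ Γ) ∈
      (fun u : G => ((u * g : G) : G ⧸ Γ)) '' U :=
    MapClusterPt.frequently (F := atTop) (u := fun k : ℕ => ((τ i ^ (k : ℤ) : G) : G ⧸ Γ)) hy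
      (p := fun z => z ∈ (fun u : G => ((u * g : G) : G ⧸ Γ)) '' U) hnb
  obtain ⟨φ, hφ, hφ2⟩ := Filter.extraction_of_frequently_atTop hfr
  refine ⟨φ, hφ, fun a b v hv => ?_⟩
  have key : ∀ k : ℕ, ((τ i ^ (k : ℤ) : G) : G ⧸ Γ) ∈ (fun u : G => ((u * g : G) : G ⧸ Γ)) '' U →
      ‖ψ (v + un i (k : ℤ)) -
        Ψ ((((List.ofFn fun j => τ j ^ v j).prod * g : G) : G ⧸ Γ))‖ < δ / 2 := by
    rintro k ⟨w, hw, hw'⟩
    rw [hψ (v + un i (k : ℤ)) (by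
      intro j
      rw [Pi.add_apply]
      unfold un
      by_cases hj : j = i
      · rw [hj, Pi.single_eq_same]
        have := hv i
        omega
      · rw [Pi.single_eq_of_ne hj]
        have := hv j
        omega), hprod]
    set p := (List.ofFn fun j => τ j ^ v j).prod with hp
    have e2 : ((p * τ i ^ (k : ℤ) : G) : G ⧸ Γ) = p • ((τ i ^ (k : ℤ) : G) : G ⧸ Γ) := rfl
    rw [e2, ← hw']
    have e3 : p • ((w * g : G) : G ⧸ Γ) = w • ((p * g : G) : G ⧸ Γ) := by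
      show ((p * (w * g) : G) : G ⧸ Γ) = ((w * (p * g) : G) : G ⧸ Γ)
      congr 1
      rw [← mul_assoc, ← mul_assoc, hcomm p w]
    rw [e3]
    exact hUd w hw _
  have h1 := key _ (hφ2 a)
  have h2 := key _ (hφ2 b)
  set z := Ψ ((((List.ofFn fun j => τ j ^ v j).prod * g : G) : G ⧸ Γ))
  have h3 : ψ (v + un i (φ a : ℤ)) - ψ (v + un i (φ b : ℤ)) =
      (ψ (v + un i (φ a : ℤ)) - z) - (ψ (v + un i (φ b : ℤ)) - z) := by ring
  rw [h3]
  have h4 := norm_sub_le (ψ (v + un i (φ a : ℤ)) - z) (ψ (v + un i (φ b : ℤ)) - z)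
  linarith

theorem nilseq_bdd {d : ℕ} (s : ℕ) (ψ : (Fin d → ℤ) → ℂ) (h : IsNilseq s ψ) :
    ∃ M : ℝ, 0 < M ∧ ∀ v : Fin d → ℤ, (∀ j, 1 ≤ v j) → ‖ψ v‖ ≤ M := by
  obtain ⟨E, _, _, _, G, i1, i2, _, _, _, i3, i4, Γ, _, i5, Ψ, τ, hc, -, hψ⟩ := h
  refine ⟨‖Ψ‖ + 1, by positivity, fun v hv => ?_⟩
  rw [hψ v hv]
  exact (Ψ.norm_coe_le_norm _).trans (by linarith)

/-- lower bound for the seminorm -/
theorem le_seminorm {d : ℕ} (b : (Fin d → ℤ) → ℂ) (I : ℕ → Finset (Fin d → ℤ)) (hI : IsFolner I)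
    (h : ∀ ρ : ℝ, 0 ≤ ρ → ρ < 1 → ∃ᶠ j in atTop, ρ * (I j).card < ∑ v ∈ I j, ‖b v‖ ^ 2) :
    1 ≤ seminormTwo b := by
  unfold seminormTwo
  have h1 : 1 ≤ (⨆ I : {I : ℕ → Finset (Fin d → ℤ) // IsFolner I},
      limsup (fun j => (∑ v ∈ I.1 j, ‖b v‖ₑ ^ 2) / ((I.1 j).card : ℝ≥0∞)) atTop) := by
    refine le_trans ?_ (le_iSup (fun I : {I : ℕ → Finset (Fin d → ℤ) // IsFolner I} =>
      limsup (fun j => (∑ v ∈ I.1 j, ‖b v‖ₑ ^ 2) / ((I.1 j).card : ℝ≥0∞)) atTop) ⟨I, hI⟩)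
    by_contra hcon
    push Not at hcon
    obtain ⟨ρ, hρ1, hρ2⟩ := exists_between hcon
    have hρt : ρ ≠ ⊤ := (hρ2.trans ENNReal.one_lt_top).ne
    have hρ3 : ρ.toReal < 1 := by
      have := (ENNReal.toReal_lt_toReal hρt ENNReal.one_ne_top).2 hρ2
      simpa using this
    have h2 := Filter.eventually_lt_of_limsup_lt hρ1
    obtain ⟨j, hj1, hj2⟩ := ((h ρ.toReal ENNReal.toReal_nonneg hρ3).and_eventually h2).exists
    have hc : (0 : ℝ) < (I j).card := by exact_mod_cast (hI.1 j).card_pos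
    have h5 : (∑ v ∈ I j, ‖b v‖ₑ ^ 2) = ENNReal.ofReal (∑ v ∈ I j, ‖b v‖ ^ 2) := by
      rw [ENNReal.ofReal_sum_of_nonneg (fun v _ => by positivity)]
      refine Finset.sum_congr rfl fun v _ => ?_
      rw [ENNReal.ofReal_pow (norm_nonneg _), ofReal_norm]
    have h6 : ((I j).card : ℝ≥0∞) = ENNReal.ofReal ((I j).card : ℝ) := by
      rw [ENNReal.ofReal_natCast]
    rw [h5, h6, ← ENNReal.ofReal_div_of_pos hc, ← ENNReal.ofReal_toReal hρt] at hj2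
    have h7 := (ENNReal.ofReal_lt_ofReal_iff' ).1 hj2
    have h8 := h7.1
    rw [div_lt_iff₀ hc] at h8
    linarith
  calc (1 : ℝ≥0∞) = 1 ^ (1 / 2 : ℝ) := by simp
    _ ≤ _ := ENNReal.rpow_le_rpow h1 (by norm_num)

theorem box_isFolner (d : ℕ) : IsFolner (box d) :=
  ⟨box_nonempty d, fun n v hv i => ((mem_box d n v).1 hv i).1, box_folner d⟩

end KS6Nil
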