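import Pool.Agent.KS6_1.Nil.Approx

open MeasureTheory Filter Topology ENNReal
open scoped InnerProductSpace ComplexConjugate

namespace KS6Nil

/-- radial projection to the disc of radius `r` -/
noncomputable def clip (r : ℝ) (z : ℂ) : ℂ := ((r / max r ‖z‖ : ℝ) : ℂ) * z

theorem clip_continuous (r : ℝ) (hr : 0 ≤ r) : Continuous (clip r) := by
  rcases hr.eq_or_lt with h | h
  · have : clip r = fun _ => 0 := by
      funext z; unfold clip; rw [← h]; simp
    rw [this]; exact continuous_const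
  · unfold clip
    have h1 : ∀ z : ℂ, max r ‖z‖ ≠ 0 := fun z => (lt_max_of_lt_left h).ne'
    have h2 : Continuous fun z : ℂ => r / max r ‖z‖ :=
      continuous_const.div (by fun_prop) h1
    exact (Complex.continuous_ofReal.comp h2).mul continuous_id

theorem clip_norm (r : ℝ) (hr : 0 ≤ r) (z : ℂ) : ‖clip r z‖ ≤ r := by
  unfold clip
  rw [norm_mul, Complex.norm_real, Real.norm_of_nonneg (by positivity)]
  rcases (le_max_of_le_right (norm_nonneg z) : 0 ≤ max r ‖z‖).eq_or_lt with h | h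
  · rw [← h]; simpa using hr
  · rw [div_mul_eq_mul_div, div_le_iff₀ h]
    exact mul_le_mul_of_nonneg_left (le_max_right _ _) hr

theorem clip_dist (r : ℝ) (hr : 0 ≤ r) (a z : ℂ) (ha : ‖a‖ ≤ r) : ‖a - clip r z‖ ≤ ‖a - z‖ := by
  by_cases hz : ‖z‖ ≤ r
  · rcases hr.eq_or_lt with h | h
    · have : z = 0 := by
        rw [← h] at hz; exact norm_le_zero_iff.1 hz
      rw [this]; unfold clip; simp
    · have : clip r z = z := by
        unfold clip
        rw [max_eq_left hz, div_self h.ne']; simp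
      rw [this]
  · push Not at hz
    have hz0 : 0 < ‖z‖ := lt_of_le_of_lt hr hz
    set t : ℝ := r / ‖z‖ with ht
    have hclip : clip r z = (t : ℂ) * z := by
      unfold clip
      rw [max_eq_right hz.le]
    have ht0 : 0 ≤ t := by positivity
    have ht1 : t < 1 := by rw [ht, div_lt_one hz0]; exact hz
    have htz : t * ‖z‖ = r := by rw [ht]; field_simp
    rw [hclip]
    have h1 : ‖a - (t : ℂ) * z‖ ^ 2 ≤ ‖a - z‖ ^ 2 := by
      rw [← Complex.normSq_eq_norm_sq, ← Complex.normSq_eq_norm_sq, Complex.normSq_sub,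
        Complex.normSq_sub, Complex.normSq_mul, Complex.normSq_ofReal, map_mul, Complex.conj_ofReal]
      have h2 : (a * ((t : ℂ) * conj z)).re = t * (a * conj z).re := by
        rw [← mul_assoc, mul_comm a, mul_assoc, Complex.re_ofReal_mul]
      rw [h2]
      have h3 : (a * conj z).re ≤ r * ‖z‖ := by
        calc (a * conj z).re ≤ ‖a * conj z‖ := Complex.re_le_norm _
          _ = ‖a‖ * ‖z‖ := by rw [norm_mul, RCLike.norm_conj]
          _ ≤ _ := by gcongr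
      rw [Complex.normSq_eq_norm_sq z]
      have h4 : (1 - t) * ((a * conj z).re) ≤ (1 - t) * (r * ‖z‖) :=
        mul_le_mul_of_nonneg_left h3 (by linarith)
      have h5 : r * ‖z‖ = t * ‖z‖ ^ 2 := by rw [← htz]; ring
      rw [h5] at h4
      have h6 : 0 ≤ (1 - t) * (1 - t) * ‖z‖ ^ 2 := by positivity
      nlinarith
    exact (pow_le_pow_iff_left₀ (norm_nonneg _) (norm_nonneg _) two_ne_zero).1 h1

theorem seminorm_le {d : ℕ} (b : (Fin d → ℤ) → ℂ) (ε : ℝ) (hε : 0 ≤ ε)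
    (h : ∀ I : ℕ → Finset (Fin d → ℤ), IsFolner I →
      ∀ᶠ j in atTop, ∑ v ∈ I j, ‖b v‖ ^ 2 ≤ ε ^ 2 * (I j).card) :
    seminormTwo b ≤ ENNReal.ofReal ε := by
  unfold seminormTwo
  have h1 : (⨆ I : {I : ℕ → Finset (Fin d → ℤ) // IsFolner I},
      limsup (fun j => (∑ v ∈ I.1 j, ‖b v‖ₑ ^ 2) / ((I.1 j).card : ℝ≥0∞)) atTop) ≤
      ENNReal.ofReal (ε ^ 2) := by
    refine iSup_le fun I => ?_
    refine limsup_le_of_le (h := ?_)
    filter_upwards [h I.1 I.2] with j hj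
    have hc : (0 : ℝ) < (I.1 j).card := by exact_mod_cast (I.2.1 j).card_pos
    have h5 : (∑ v ∈ I.1 j, ‖b v‖ₑ ^ 2) = ENNReal.ofReal (∑ v ∈ I.1 j, ‖b v‖ ^ 2) := by
      rw [ENNReal.ofReal_sum_of_nonneg (fun v _ => by positivity)]
      refine Finset.sum_congr rfl fun v _ => ?_
      rw [ENNReal.ofReal_pow (norm_nonneg _), ofReal_norm]
    have h6 : ((I.1 j).card : ℝ≥0∞) = ENNReal.ofReal ((I.1 j).card : ℝ) := by
      rw [ENNReal.ofReal_natCast]
    rw [h5, h6, ← ENNReal.ofReal_div_of_pos hc]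
    apply ENNReal.ofReal_le_ofReal
    rw [div_le_iff₀ hc]
    exact hj
  have h2 := ENNReal.rpow_le_rpow h1 (by norm_num : (0 : ℝ) ≤ 1 / 2)
  refine h2.trans (le_of_eq ?_)
  rw [ENNReal.ofReal_rpow_of_nonneg (by positivity) (by norm_num), ← Real.sqrt_eq_rpow,
    Real.sqrt_sq hε]

theorem isApprox_of {d : ℕ} (a : (Fin d → ℤ) → ℂ) (C0 : ℝ)
    (hbd : ∀ v, (∀ i, 1 ≤ v i) → ‖a v‖ ≤ C0)
    (h : ∀ δ : ℝ, 0 < δ → ∃ p ∈ trig d, ∀ I : ℕ → Finset (Fin d → ℤ), IsFolner I →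
      ∀ᶠ j in atTop, ∑ v ∈ I j, ‖a v - p v‖ ^ 2 ≤ δ * (I j).card) : IsApproxNilseq 1 a := by
  intro ε hε
  obtain ⟨p, hp, hpI⟩ := h (ε ^ 2) (by positivity)
  set W : Set ℝ := {x | ∃ v : Fin d → ℤ, (∀ i, 1 ≤ v i) ∧ x = ‖a v‖} with hW
  have hWne : W.Nonempty := ⟨_, fun _ => 1, fun _ => le_refl _, rfl⟩
  have hWbd : BddAbove W := ⟨C0, by rintro x ⟨v, hv, rfl⟩; exact hbd v hv⟩
  set r := sSup W with hr
  have hav : ∀ v, (∀ i, 1 ≤ v i) → ‖a v‖ ≤ r := fun v hv => le_csSup hWbd ⟨v, hv, rfl⟩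
  have hr0 : 0 ≤ r := (norm_nonneg _).trans (hav (fun _ => 1) fun _ => le_refl _)
  refine ⟨fun v => clip r (p v), fun v => a v - clip r (p v), fun v _ => by ring,
    ((isTor_trig p hp).comp (clip r) (clip_continuous r hr0)).isNilseq, ?_, ?_⟩
  · intro C hC v _
    refine (clip_norm r hr0 _).trans (csSup_le hWne ?_)
    rintro x ⟨w, hw, rfl⟩
    exact hC w hw
  · refine seminorm_le _ ε hε.le fun I hI => ?_
    filter_upwards [hpI I hI] with j hj
    refine le_trans (Finset.sum_le_sum fun v hv => ?_) hj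
    exact pow_le_pow_left₀ (norm_nonneg _) (clip_dist r hr0 _ _ (hav v (hI.2.1 j v hv))) 2

section system

variable {X : Type*} [MeasurableSpace X] (μ : Measure X)

/-- the form `(ξ, η) ↦ ∫ h ξ η` -/
theorem exists_form [IsProbabilityMeasure μ] (h : X → ℂ) (hh : MemLp h ⊤ μ) :
    ∃ Λ : Lp ℂ 2 μ →L[ℂ] Lp ℂ 2 μ →L[ℂ] ℂ, ∀ ξ η : Lp ℂ 2 μ,
      Λ ξ η = ∫ x, h x * ξ x * η x ∂μ := by
  let M := ContinuousLinearMap.mul ℂ ℂ
  let A1 : Lp ℂ 2 μ →L[ℂ] Lp ℂ 2 μ := M.holderL μ ⊤ 2 2 (hh.toLp h)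
  let A2 : Lp ℂ 2 μ →L[ℂ] Lp ℂ 2 μ →L[ℂ] Lp ℂ 1 μ := M.holderL μ 2 2 1
  let J : Lp ℂ 1 μ →L[ℂ] ℂ := L1.integralCLM' ℂ
  refine ⟨(ContinuousLinearMap.compL ℂ (Lp ℂ 2 μ) (Lp ℂ 1 μ) ℂ J).comp (A2.comp A1), fun ξ η => ?_⟩
  show J (A2 (A1 ξ) η) = _
  have h1 : J (A2 (A1 ξ) η) = ∫ x, (A2 (A1 ξ) η) x ∂μ := by
    rw [← L1.integral_eq_integral, L1.integral_eq' ℂ]
  rw [h1]
  refine integral_congr_ae ?_
  have h2 : (A2 (A1 ξ) η) =ᵐ[μ] fun x => M ((A1 ξ) x) (η x) := by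
    exact ContinuousLinearMap.coeFn_holder M _ _
  have h3 : (A1 ξ) =ᵐ[μ] fun x => M ((hh.toLp h) x) (ξ x) := by
    exact ContinuousLinearMap.coeFn_holder M _ _
  have h4 := hh.coeFn_toLp
  filter_upwards [h2, h3, h4] with x h2 h3 h4
  rw [h2, h3, h4]
  rfl

/-- correlations along `v` and `A v` with `A` idempotent -/
theorem positive {d : ℕ} (A : Matrix (Fin d) (Fin d) ℤ) (hA : A * A = A) [IsProbabilityMeasure μ]
    (T : (Fin d → ℤ) → X → X) (hT0 : ∀ x, T 0 x = x) (hT : ∀ u v x, T (u + v) x = T u (T v x))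
    (hmp : ∀ u, MeasurePreserving (T u) μ μ) (f g h : X → ℂ) (hf : MemLp f ⊤ μ) (hg : MemLp g ⊤ μ)
    (hh : MemLp h ⊤ μ) : IsApproxNilseq 1 (corr μ T A f g h) := by
  obtain ⟨Λ, hΛ⟩ := exists_form μ h hh
  let U : (Fin d → ℤ) → Lp ℂ 2 μ →ₗᵢ[ℂ] Lp ℂ 2 μ := fun v =>
    Lp.compMeasurePreservingₗᵢ ℂ (T v) (hmp v)
  have hUae : ∀ v ξ, (U v ξ : X → ℂ) =ᵐ[μ] fun x => ξ (T v x) := fun v ξ =>
    Lp.coeFn_compMeasurePreserving ξ (hmp v)
  have hU : ∀ u v ξ, U (u + v) ξ = U u (U v ξ) := by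
    intro u v ξ
    apply Lp.ext
    have h1 := hUae (u + v) ξ
    have h2 := hUae u (U v ξ)
    have h3 := (hmp u).quasiMeasurePreserving.ae (hUae v ξ)
    filter_upwards [h1, h2, h3] with x h1 h2 h3
    rw [h1, h2, h3]
    congr 1
    rw [add_comm, hT]
  have hU0 : ∀ ξ, U 0 ξ = ξ := by
    intro ξ
    apply Lp.ext
    filter_upwards [hUae 0 ξ] with x h1
    rw [h1, hT0]
  have hAA : ∀ v, A.mulVec (A.mulVec v) = A.mulVec v := fun v => by
    rw [Matrix.mulVec_mulVec, hA]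
  let R : (Fin d → ℤ) → Lp ℂ 2 μ →ₗᵢ[ℂ] Lp ℂ 2 μ := fun v => U (v - A.mulVec v)
  let S : (Fin d → ℤ) → Lp ℂ 2 μ →ₗᵢ[ℂ] Lp ℂ 2 μ := fun v => U (-A.mulVec v)
  have hf2 : MemLp f 2 μ := hf.mono_exponent le_top
  have hg2 : MemLp g 2 μ := hg.mono_exponent le_top
  have hcorr : ∀ v, corr μ T A f g h v = Λ (R v (hg2.toLp g)) (S v (hf2.toLp f)) := by
    intro v
    rw [hΛ]
    unfold corr
    let e : X ≃ᵐ X :=
      { toFun := T (-A.mulVec v)
        invFun := T (A.mulVec v)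
        left_inv := fun x => by rw [← hT, add_neg_cancel, hT0]
        right_inv := fun x => by rw [← hT, neg_add_cancel, hT0]
        measurable_toFun := (hmp _).measurable
        measurable_invFun := (hmp _).measurable }
    have he : MeasurePreserving e μ μ := hmp (-A.mulVec v)
    rw [← he.integral_comp e.measurableEmbedding]
    refine integral_congr_ae ?_
    have h1 := hUae (v - A.mulVec v) (hg2.toLp g)
    have h2 := hUae (-A.mulVec v) (hf2.toLp f)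
    have h3 := (hmp (v - A.mulVec v)).quasiMeasurePreserving.ae hg2.coeFn_toLp
    have h4 := (hmp (-A.mulVec v)).quasiMeasurePreserving.ae hf2.coeFn_toLp
    filter_upwards [h1, h2, h3, h4] with x h1 h2 h3 h4
    show f (T (-A.mulVec v) x) * g (T v (T (-A.mulVec v) x)) *
      h (T (A.mulVec v) (T (-A.mulVec v) x)) =
      h x * (U (v - A.mulVec v) (hg2.toLp g)) x * (U (-A.mulVec v) (hf2.toLp f)) x
    rw [h1, h2, h3, h4, ← hT, ← hT, add_neg_cancel, hT0, ← sub_eq_add_neg]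
    ring
  have hbd : ∀ v, ‖corr μ T A f g h v‖ ≤ ‖Λ‖ * ‖hg2.toLp g‖ * ‖hf2.toLp f‖ := by
    intro v
    rw [hcorr]
    refine (Λ.le_opNorm₂ _ _).trans (le_of_eq ?_)
    rw [(R v).norm_map, (S v).norm_map]
  refine isApprox_of _ _ (fun v _ => hbd v) fun δ hδ => ?_
  simp only [hcorr]
  refine abstract_approx R S ?_ ?_ ?_ ?_ (fun k => k - A.mulVec k) (fun k => A.mulVec k)
    ?_ ?_ ?_ ?_ Λ _ _ δ hδ
  · intro u v x
    show U _ x = U _ (U _ x)
    rw [← hU]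
    congr 2
    rw [Matrix.mulVec_add]
    abel
  · intro x
    show U _ x = x
    rw [Matrix.mulVec_zero, sub_zero, hU0]
  · intro u v x
    show U _ x = U _ (U _ x)
    rw [← hU]
    congr 2
    rw [Matrix.mulVec_add]
    abel
  · intro x
    show U _ x = x
    rw [Matrix.mulVec_zero, neg_zero, hU0]
  · intro v k x
    show U _ x = U _ (U _ x)
    rw [← hU]
    congr 2
    rw [Matrix.mulVec_add, Matrix.mulVec_sub, hAA]
    abel
  · intro v k x
    show U _ x = U _ x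
    congr 2
    rw [Matrix.mulVec_add, Matrix.mulVec_sub, hAA]
    abel
  · intro v k x
    show U _ x = U _ x
    congr 2
    rw [Matrix.mulVec_add, hAA]
    abel
  · intro v k x
    show U _ x = U _ (U _ x)
    rw [← hU]
    congr 2
    rw [Matrix.mulVec_add, hAA]
    abel

end system

end KS6Nil
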