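import Pool.Agent.KS6_1.Nil.Neg

open MeasureTheory Filter Topology ENNReal Matrix
open scoped ComplexConjugate

namespace KS6Nil

/-- the quadratic phase -/
noncomputable def qph {d : ℕ} (w : Circle) (M : Matrix (Fin d) (Fin d) ℤ) (v : Fin d → ℤ) : ℂ :=
  ((w ^ (v ⬝ᵥ M *ᵥ v) : Circle) : ℂ)

theorem norm_qph {d : ℕ} (w : Circle) (M : Matrix (Fin d) (Fin d) ℤ) (v : Fin d → ℤ) :
    ‖qph w M v‖ = 1 := Circle.norm_coe _

theorem q_expand {d : ℕ} (M : Matrix (Fin d) (Fin d) ℤ) (hM : Mᵀ = M) (v : Fin d → ℤ) (i : Fin d)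
    (k : ℤ) : (v + un i k) ⬝ᵥ M *ᵥ (v + un i k) =
      v ⬝ᵥ M *ᵥ v + 2 * k * (∑ j, M i j * v j) + k ^ 2 * M i i := by
  have h1 : M *ᵥ un i k = fun j => M j i * k := by
    unfold un
    funext j
    rw [Matrix.mulVec_single]
    simp [mul_comm]
  have h2 : ∀ j, M j i = M i j := fun j => by
    have := congrFun (congrFun hM i) j
    rw [Matrix.transpose_apply] at this
    exact this
  rw [Matrix.mulVec_add, dotProduct_add, add_dotProduct, add_dotProduct, h1]
  have h3 : v ⬝ᵥ (fun j => M j i * k) = k * ∑ j, M i j * v j := by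
    unfold dotProduct
    rw [Finset.mul_sum]
    refine Finset.sum_congr rfl fun j _ => ?_
    show v j * (M j i * k) = k * (M i j * v j)
    rw [h2 j]; ring
  have h4 : un i k ⬝ᵥ (fun j => M j i * k) = k ^ 2 * M i i := by
    unfold un
    rw [single_dotProduct]; ring
  have h5 : un i k ⬝ᵥ M *ᵥ v = k * ∑ j, M i j * v j := by
    unfold un
    rw [single_dotProduct]; rfl
  rw [h3, h4, h5]
  ring

theorem quad_shift {d : ℕ} (w : Circle) (M : Matrix (Fin d) (Fin d) ℤ) (hM : Mᵀ = M)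
    (v : Fin d → ℤ) (i : Fin d) (k l : ℤ) :
    qph w M (v + un i k) * conj (qph w M (v + un i l)) =
      ((w ^ ((k ^ 2 - l ^ 2) * M i i) : Circle) : ℂ) *
        ∏ j, (((w ^ (2 * (k - l) * M i j)) ^ (v j) : Circle) : ℂ) := by
  unfold qph
  rw [← Circle.coe_inv_eq_conj, ← Circle.coe_mul, q_expand M hM, q_expand M hM, ← _root_.zpow_neg,
    ← _root_.zpow_add]
  have h1 : ∏ j, (((w ^ (2 * (k - l) * M i j)) ^ (v j) : Circle) : ℂ) =
      ((w ^ (∑ j, 2 * (k - l) * M i j * v j) : Circle) : ℂ) := by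
    have h2 : (w ^ (∑ j, 2 * (k - l) * M i j * v j) : Circle) =
        ∏ j, (w ^ (2 * (k - l) * M i j)) ^ (v j) := by
      have h3 : ∀ (s : Finset (Fin d)) (f : Fin d → ℤ), w ^ (∑ j ∈ s, f j) = ∏ j ∈ s, w ^ f j := by
        intro s f
        induction s using Finset.induction_on with
        | empty => simp
        | insert a s ha ih => rw [Finset.sum_insert ha, Finset.prod_insert ha, _root_.zpow_add, ih]
      rw [h3]
      refine Finset.prod_congr rfl fun j _ => ?_
      rw [_root_.zpow_mul]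
    rw [h2]
    exact (map_prod Circle.coeHom (fun j => (w ^ (2 * (k - l) * M i j)) ^ (v j))
      Finset.univ).symm
  rw [h1, ← Circle.coe_mul, ← _root_.zpow_add]
  congr 2
  have h4 : ∑ j, 2 * (k - l) * M i j * v j = 2 * (k - l) * ∑ j, M i j * v j := by
    rw [Finset.mul_sum]
    exact Finset.sum_congr rfl fun j _ => by ring
  rw [h4]
  ring

theorem geom_le (z : Circle) (n : ℕ) :
    ‖∑ x ∈ Finset.Icc (1 : ℤ) ((n : ℤ) + 1), ((z ^ x : Circle) : ℂ)‖ ≤ (n : ℝ) + 1 := by
  refine (norm_sum_le _ _).trans ?_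
  simp only [Circle.norm_coe]
  simp

theorem geom_bound (z : Circle) (hz : z ≠ 1) (n : ℕ) :
    ‖∑ x ∈ Finset.Icc (1 : ℤ) ((n : ℤ) + 1), ((z ^ x : Circle) : ℂ)‖ ≤ 2 / ‖(z : ℂ) - 1‖ := by
  have hz1 : (z : ℂ) - 1 ≠ 0 := by
    intro h
    exact hz (Circle.ext (by rw [Circle.coe_one]; exact sub_eq_zero.1 h))
  have himg : Finset.Icc (1 : ℤ) ((n : ℤ) + 1) =
      (Finset.range (n + 1)).image (fun m : ℕ => (m : ℤ) + 1) := by
    ext x
    simp only [Finset.mem_Icc, Finset.mem_image, Finset.mem_range]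
    constructor
    · rintro ⟨h1, h2⟩
      exact ⟨(x - 1).toNat, by omega, by omega⟩
    · rintro ⟨m, hm, rfl⟩
      omega
  have h1 : ∑ x ∈ Finset.Icc (1 : ℤ) ((n : ℤ) + 1), ((z ^ x : Circle) : ℂ) =
      z * ∑ m ∈ Finset.range (n + 1), (z : ℂ) ^ m := by
    rw [himg, Finset.sum_image (fun a _ b _ h => by simpa using h), Finset.mul_sum]
    refine Finset.sum_congr rfl fun m _ => ?_
    rw [_root_.zpow_add_one, _root_.zpow_natCast, mul_comm]
    simp
  rw [h1, geom_sum_eq (by intro h; exact hz1 (sub_eq_zero.2 h)), norm_mul, Circle.norm_coe, one_mul,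
    norm_div]
  gcongr
  refine (norm_sub_le _ _).trans ?_
  rw [norm_pow, Circle.norm_coe]
  norm_num

theorem off_diag {d : ℕ} (w : Circle) (hw : ∀ n : ℤ, n ≠ 0 → w ^ n ≠ 1)
    (M : Matrix (Fin d) (Fin d) ℤ) (hM : Mᵀ = M) (i j0 : Fin d) (hij : M i j0 ≠ 0) (k l : ℤ)
    (hkl : k ≠ l) : ∃ K : ℝ, 0 ≤ K ∧ ∀ n : ℕ,
      ‖∑ v ∈ box d n, qph w M (v + un i k) * conj (qph w M (v + un i l))‖ ≤
        K * (1 / ((n : ℝ) + 1)) * ((box d n).card : ℝ) := by
  set z : Fin d → Circle := fun j => w ^ (2 * (k - l) * M i j) with hz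
  have hz0 : z j0 ≠ 1 := hw _ (mul_ne_zero (mul_ne_zero two_ne_zero (sub_ne_zero.2 hkl)) hij)
  refine ⟨2 / ‖(z j0 : ℂ) - 1‖, by positivity, fun n => ?_⟩
  set K := 2 / ‖(z j0 : ℂ) - 1‖ with hK
  have h1 : ∑ v ∈ box d n, qph w M (v + un i k) * conj (qph w M (v + un i l)) =
      ((w ^ ((k ^ 2 - l ^ 2) * M i i) : Circle) : ℂ) *
        ∏ j, ∑ x ∈ Finset.Icc (1 : ℤ) ((n : ℤ) + 1), ((z j ^ x : Circle) : ℂ) := by
    rw [Finset.prod_univ_sum, Finset.mul_sum]
    refine Finset.sum_congr rfl fun v _ => ?_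
    rw [quad_shift w M hM]
  rw [h1, norm_mul, Circle.norm_coe, one_mul, norm_prod, box_card]
  have hn : (0 : ℝ) < (n : ℝ) + 1 := by positivity
  calc ∏ j, ‖∑ x ∈ Finset.Icc (1 : ℤ) ((n : ℤ) + 1), ((z j ^ x : Circle) : ℂ)‖ ≤
        ∏ j, (((n : ℝ) + 1) * (if j = j0 then K / ((n : ℝ) + 1) else 1)) := by
        refine Finset.prod_le_prod (fun j _ => norm_nonneg _) fun j _ => ?_
        by_cases h : j = j0
        · rw [if_pos h, h]
          have := geom_bound (z j0) hz0 n
          refine this.trans (le_of_eq ?_)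
          rw [← hK]
          field_simp
        · rw [if_neg h, mul_one]
          exact geom_le (z j) n
    _ = _ := by
        rw [Finset.prod_mul_distrib, Finset.prod_ite_eq' Finset.univ j0 (fun _ => K / ((n : ℝ) + 1)),
          if_pos (Finset.mem_univ _)]
        simp only [Finset.prod_const, Finset.card_univ, Fintype.card_fin]
        push_cast
        ring

theorem main_neg {d : ℕ} (w : Circle) (hw : ∀ n : ℤ, n ≠ 0 → w ^ n ≠ 1)
    (M : Matrix (Fin d) (Fin d) ℤ) (hM : Mᵀ = M) (hM0 : M ≠ 0) (ψ : (Fin d → ℤ) → ℂ)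
    (hψ : IsNilseq 1 ψ) : 1 ≤ seminormTwo (fun v => qph w M v - ψ v) := by
  obtain ⟨i, j0, hij⟩ : ∃ i j0, M i j0 ≠ 0 := by
    by_contra hcon
    push Not at hcon
    exact hM0 (Matrix.ext fun i j => hcon i j)
  refine le_seminorm _ (box d) (box_isFolner d) fun ρ hρ0 hρ1 => ?_
  by_contra hcon
  rw [Filter.not_frequently] at hcon
  push Not at hcon
  set η := 1 - ρ with hη
  have hη0 : 0 < η := by linarith
  obtain ⟨B, hB0, hB⟩ := nilseq_bdd 1 ψ hψ
  set δ := η / 10 with hδ
  have hδ0 : 0 < δ := by positivity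
  set κ := η / (10 * B) with hκ
  have hκ0 : 0 < κ := by positivity
  have hBκ : B * κ = η / 10 := by rw [hκ]; field_simp
  obtain ⟨J, hJ⟩ := exists_nat_gt (10 * B / (η * κ))
  have hJ0 : (0 : ℝ) < J := lt_of_le_of_lt (by positivity) hJ
  have hJB : B / (J * κ) ≤ η / 10 := by
    rw [div_lt_iff₀ (by positivity)] at hJ
    rw [div_le_iff₀ (by positivity)]
    nlinarith
  set ω := η * κ / (10 * B) with hω
  have hω0 : 0 < ω := by positivity
  have hωB : B * ω / κ = η / 10 := by rw [hω]; field_simp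
  obtain ⟨φ, hφ, hφψ⟩ := nilseq_recur ψ hψ i δ hδ0
  set c : ℕ → (Fin d → ℤ) := fun j => un i (φ j : ℤ) with hc
  have hc0 : ∀ j (v : Fin d → ℤ), (∀ t, 1 ≤ v t) → ∀ t, 1 ≤ (v + c j) t := by
    intro j v hv t
    rw [hc, Pi.add_apply]
    simp only
    unfold un
    by_cases ht : t = i
    · rw [ht, Pi.single_eq_same]
      have := hv i
      omega
    · rw [Pi.single_eq_of_ne ht]
      have := hv t
      omega
  -- events
  have e1 : ∀ᶠ n in atTop, ∀ j ∈ Finset.range J, (1 + B) ^ 2 *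
      ((symmDiff ((box d n).image (· + c j)) (box d n)).card : ℝ) ≤ η / 10 * (box d n).card := by
    rw [Filter.eventually_all_finset]
    intro j _
    have h1 := (box_folner d (c j)).const_mul ((1 + B) ^ 2)
    rw [mul_zero] at h1
    filter_upwards [h1.eventually (gt_mem_nhds (by positivity : (0 : ℝ) < η / 10))] with n hn
    have hcard : (0 : ℝ) < (box d n).card := by exact_mod_cast (box_nonempty d n).card_pos
    rw [← mul_div_assoc, div_lt_iff₀ hcard] at hn
    exact hn.le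
  have e2 : ∀ᶠ n in atTop, ∀ j ∈ Finset.range J, ∀ l ∈ Finset.range J, j ≠ l →
      ‖∑ v ∈ box d n, qph w M (v + c j) * conj (qph w M (v + c l))‖ ≤ ω * (box d n).card := by
    rw [Filter.eventually_all_finset]
    intro j _
    rw [Filter.eventually_all_finset]
    intro l _
    by_cases hjl : j = l
    · exact Filter.Eventually.of_forall fun n h => absurd hjl h
    · obtain ⟨K, hK0, hK⟩ := off_diag w hw M hM i j0 hij (φ j : ℤ) (φ l : ℤ) (by
        intro h
        exact hjl (hφ.injective (by exact_mod_cast h)))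
      have h1 := (tendsto_one_div_add_atTop_nhds_zero_nat (𝕜 := ℝ)).const_mul K
      rw [mul_zero] at h1
      filter_upwards [h1.eventually (gt_mem_nhds hω0)] with n hn _
      exact (hK n).trans (by gcongr)
  obtain ⟨n, h0, h1, h2⟩ := (hcon.and (e1.and e2)).exists
  set I := box d n with hI
  have hIc : (0 : ℝ) < I.card := by exact_mod_cast (box_nonempty d n).card_pos
  have hI1 : ∀ v ∈ I, ∀ t, 1 ≤ v t := fun v hv t => ((mem_box d n v).1 hv t).1
  set b : (Fin d → ℤ) → ℂ := fun v => qph w M v - ψ v with hb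
  have hbB : ∀ v : Fin d → ℤ, (∀ t, 1 ≤ v t) → ‖b v‖ ≤ 1 + B := by
    intro v hv
    refine (norm_sub_le _ _).trans ?_
    rw [norm_qph]
    linarith [hB v hv]
  -- upper bound
  have hup : ∀ j ∈ Finset.range J, ∑ v ∈ I, ‖b (v + c j)‖ ^ 2 ≤ (ρ + η / 10) * I.card := by
    intro j hj
    have h3 := shift_sum I (c j) (fun v => ‖b v‖ ^ 2) ((1 + B) ^ 2) (by
      intro v hv
      have hv' : ∀ t, 1 ≤ v t := by
        rcases Finset.mem_union.1 hv with h | h
        · obtain ⟨u, hu, rfl⟩ := Finset.mem_image.1 h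
          exact hc0 j u (hI1 u hu)
        · exact hI1 v h
      rw [Real.norm_eq_abs, abs_of_nonneg (by positivity)]
      exact pow_le_pow_left₀ (norm_nonneg _) (hbB v hv') 2)
    rw [Real.norm_eq_abs] at h3
    have h4 := le_abs_self (∑ v ∈ I, ‖b (v + c j)‖ ^ 2 - ∑ v ∈ I, ‖b v‖ ^ 2)
    have h5 := h1 j hj
    linarith
  have hup2 : ∑ j ∈ Finset.range J, ∑ v ∈ I, ‖b (v + c j)‖ ^ 2 ≤ J * ((ρ + η / 10) * I.card) := by
    have h6 := Finset.sum_le_card_nsmul _ _ _ hup
    rw [Finset.card_range, nsmul_eq_mul] at h6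
    exact h6
  -- the sums of the shifts
  set s : (Fin d → ℤ) → ℂ := fun v => ∑ j ∈ Finset.range J, qph w M (v + c j) with hs
  have hsum : ∑ v ∈ I, ‖s v‖ ^ 2 ≤ (J + J ^ 2 * ω) * I.card := by
    have h3 : ((∑ v ∈ I, ‖s v‖ ^ 2 : ℝ) : ℂ) = ∑ j ∈ Finset.range J, ∑ l ∈ Finset.range J,
        ∑ v ∈ I, qph w M (v + c j) * conj (qph w M (v + c l)) := by
      push_cast
      have h4 : ∀ v, ((‖s v‖ : ℂ)) ^ 2 = ∑ j ∈ Finset.range J, ∑ l ∈ Finset.range J,
          qph w M (v + c j) * conj (qph w M (v + c l)) := by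
        intro v
        rw [← Complex.mul_conj', hs]
        simp only
        rw [map_sum, Finset.sum_mul_sum]
      simp only [h4]
      rw [Finset.sum_comm]
      refine Finset.sum_congr rfl fun j _ => ?_
      rw [Finset.sum_comm]
    have h5 : ∑ v ∈ I, ‖s v‖ ^ 2 = ‖((∑ v ∈ I, ‖s v‖ ^ 2 : ℝ) : ℂ)‖ := by
      rw [Complex.norm_real, Real.norm_of_nonneg (by positivity)]
    rw [h5, h3]
    calc _ ≤ ∑ j ∈ Finset.range J, ∑ l ∈ Finset.range J,
        ‖∑ v ∈ I, qph w M (v + c j) * conj (qph w M (v + c l))‖ :=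
          (norm_sum_le _ _).trans (Finset.sum_le_sum fun j _ => norm_sum_le _ _)
      _ ≤ ∑ j ∈ Finset.range J, ∑ l ∈ Finset.range J,
        ((if j = l then (I.card : ℝ) else 0) + ω * I.card) := by
          refine Finset.sum_le_sum fun j hj => Finset.sum_le_sum fun l hl => ?_
          by_cases hjl : j = l
          · rw [if_pos hjl, hjl]
            have h6 : ‖∑ v ∈ I, qph w M (v + c l) * conj (qph w M (v + c l))‖ ≤ I.card := by
              refine (norm_sum_le _ _).trans ?_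
              simp [norm_qph]
            have : 0 ≤ ω * (I.card : ℝ) := by positivity
            linarith
          · rw [if_neg hjl, zero_add]
            exact h2 j hj l hl hjl
      _ = _ := by
          simp only [Finset.sum_add_distrib, Finset.sum_ite_eq, Finset.sum_const, Finset.card_range,
            nsmul_eq_mul]
          rw [Finset.sum_congr rfl (fun j hj => if_pos hj), Finset.sum_const, Finset.card_range,
            nsmul_eq_mul]
          ring
  -- pointwise lower bound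
  have hpt : ∀ v ∈ I, (J : ℝ) - B * (J * κ + ‖s v‖ ^ 2 / (J * κ)) - 2 * (J * δ) ≤
      ∑ j ∈ Finset.range J, ‖b (v + c j)‖ ^ 2 := by
    intro v hv
    have hv1 := hI1 v hv
    have h3 : ∀ j ∈ Finset.range J, 1 - 2 * (ψ (v + c j) * conj (qph w M (v + c j))).re ≤
        ‖b (v + c j)‖ ^ 2 := by
      intro j _
      rw [hb]
      simp only
      rw [← Complex.normSq_eq_norm_sq, Complex.normSq_sub, Complex.normSq_eq_norm_sq (qph _ _ _),
        norm_qph]
      have h4 : (qph w M (v + c j) * conj (ψ (v + c j))).re =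
          (ψ (v + c j) * conj (qph w M (v + c j))).re := by
        rw [← Complex.conj_re, map_mul, Complex.conj_conj, mul_comm]
      rw [h4]
      have := Complex.normSq_nonneg (ψ (v + c j))
      linarith
    have h4 := Finset.sum_le_sum h3
    rw [Finset.sum_sub_distrib, ← Finset.mul_sum] at h4
    simp only [Finset.sum_const, Finset.card_range, nsmul_eq_mul, mul_one] at h4
    have h5 : ∑ j ∈ Finset.range J, (ψ (v + c j) * conj (qph w M (v + c j))).re ≤
        B * ‖s v‖ + J * δ := by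
      have h6 : ∑ j ∈ Finset.range J, (ψ (v + c j) * conj (qph w M (v + c j))).re =
          (∑ j ∈ Finset.range J, ψ (v + c j) * conj (qph w M (v + c j))).re := by
        rw [Complex.re_sum]
      have h7 : ∑ j ∈ Finset.range J, ψ (v + c j) * conj (qph w M (v + c j)) =
          ψ (v + c 0) * conj (s v) + ∑ j ∈ Finset.range J, (ψ (v + c j) - ψ (v + c 0)) *
            conj (qph w M (v + c j)) := by
        rw [hs]
        simp only
        rw [map_sum, Finset.mul_sum, ← Finset.sum_add_distrib]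
        exact Finset.sum_congr rfl fun j _ => by ring
      rw [h6, h7]
      refine (Complex.re_le_norm _).trans ((norm_add_le _ _).trans ?_)
      have h8 : ‖ψ (v + c 0) * conj (s v)‖ ≤ B * ‖s v‖ := by
        rw [norm_mul, RCLike.norm_conj]
        exact mul_le_mul_of_nonneg_right (hB _ (hc0 0 v hv1)) (norm_nonneg _)
      have h9 : ‖∑ j ∈ Finset.range J, (ψ (v + c j) - ψ (v + c 0)) *
          conj (qph w M (v + c j))‖ ≤ J * δ := by
        refine (norm_sum_le _ _).trans ?_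
        have h10 := Finset.sum_le_card_nsmul (Finset.range J) (fun j => ‖(ψ (v + c j) -
          ψ (v + c 0)) * conj (qph w M (v + c j))‖) δ (fun j _ => by
            rw [norm_mul, RCLike.norm_conj, norm_qph, mul_one]
            exact hφψ j 0 v hv1)
        rwa [Finset.card_range, nsmul_eq_mul] at h10
      linarith
    have h11 : 2 * ‖s v‖ ≤ J * κ + ‖s v‖ ^ 2 / (J * κ) := by
      have hJκ : 0 < J * κ := by positivity
      have h12 : J * κ + ‖s v‖ ^ 2 / (J * κ) - 2 * ‖s v‖ = (J * κ - ‖s v‖) ^ 2 / (J * κ) := by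
        field_simp
        ring
      have h13 : 0 ≤ (J * κ - ‖s v‖) ^ 2 / (J * κ) := by positivity
      linarith
    nlinarith
  have hlow := Finset.sum_le_sum hpt
  rw [Finset.sum_comm] at hlow
  have h14 : ∑ v ∈ I, ((J : ℝ) - B * (J * κ + ‖s v‖ ^ 2 / (J * κ)) - 2 * (J * δ)) =
      I.card * (J - B * (J * κ) - 2 * (J * δ)) - B / (J * κ) * ∑ v ∈ I, ‖s v‖ ^ 2 := by
    have h22 : ∀ v ∈ I, ((J : ℝ) - B * (J * κ + ‖s v‖ ^ 2 / (J * κ)) - 2 * (J * δ)) =
        (J - B * (J * κ) - 2 * (J * δ)) - B / (J * κ) * ‖s v‖ ^ 2 := fun v _ => by ring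
    rw [Finset.sum_congr rfl h22, Finset.sum_sub_distrib, Finset.sum_const, nsmul_eq_mul,
      ← Finset.mul_sum]
  rw [h14] at hlow
  have h15 : B / (J * κ) * ∑ v ∈ I, ‖s v‖ ^ 2 ≤ B / (J * κ) * ((J + J ^ 2 * ω) * I.card) := by
    gcongr
  have h16 : B / (J * κ) * ((J + J ^ 2 * ω) * I.card) =
      J * (B / (J * κ) + B * ω / κ) * I.card := by
    field_simp
  rw [h16, hωB] at h15
  have h17 : (J : ℝ) * (B / (J * κ) + η / 10) * I.card ≤ J * (η / 10 + η / 10) * I.card := by
    gcongr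
  have h18 : B * (J * κ) = J * (η / 10) := by rw [← hBκ]; ring
  rw [h18] at hlow
  have h19 : 0 < J * (I.card : ℝ) := by positivity
  have h20 : (J * (I.card : ℝ)) * (1 - 5 * (η / 10)) ≤ (J * (I.card : ℝ)) * (ρ + η / 10) := by
    have := hlow.trans hup2
    nlinarith
  have h21 := le_of_mul_le_mul_left h20 h19
  linarith

end KS6Nil
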