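import Mathlib

open Matrix

namespace KS6Nil

section rat

variable {d : ℕ} (A : Matrix (Fin d) (Fin d) ℚ) (φ : Fin d → ℚ)

/-- the orbit of a row vector -/
def orb (k : ℕ) : Fin d → ℚ := φ ᵥ* (A ^ k)

theorem orb_zero : orb A φ 0 = φ := by unfold orb; simp

theorem orb_succ (k : ℕ) : orb A φ k ᵥ* A = orb A φ (k + 1) := by
  unfold orb
  rw [Matrix.vecMul_vecMul, pow_succ]

theorem orb_dep : orb A φ d ∈ Submodule.span ℚ (Set.range fun j : Fin d => orb A φ j) := by
  have h1 := Matrix.aeval_self_charpoly A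
  rw [Polynomial.aeval_eq_sum_range, Matrix.charpoly_natDegree_eq_dim, Fintype.card_fin,
    Finset.sum_range_succ] at h1
  have h2 : A.charpoly.coeff d = 1 := by
    have := A.charpoly_monic
    rw [Polynomial.Monic, Polynomial.leadingCoeff, Matrix.charpoly_natDegree_eq_dim,
      Fintype.card_fin] at this
    exact this
  rw [h2, one_smul] at h1
  have h3 : orb A φ d = -∑ j ∈ Finset.range d, A.charpoly.coeff j • orb A φ j := by
    have h4 : A ^ d = -∑ j ∈ Finset.range d, A.charpoly.coeff j • A ^ j := by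
      rw [eq_neg_iff_add_eq_zero, add_comm]; exact h1
    unfold orb
    rw [h4, Matrix.vecMul_neg, Matrix.vecMul_sum]
    congr 1
    refine Finset.sum_congr rfl fun j _ => ?_
    rw [Matrix.vecMul_smul]
  rw [h3]
  refine Submodule.neg_mem _ (Submodule.sum_mem _ fun j hj => Submodule.smul_mem _ _ ?_)
  exact Submodule.subset_span ⟨⟨j, Finset.mem_range.1 hj⟩, rfl⟩

/-- the symmetrizing matrix -/
def symz (a : ℕ → Fin d → ℚ) (s : ℕ → ℚ) (n : ℕ) : Matrix (Fin d) (Fin d) ℚ :=
  ∑ k ∈ Finset.range (n + 1), s k • ∑ i ∈ Finset.range k, vecMulVec (a i) (a (k - 1 - i))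

theorem symz_transpose (a : ℕ → Fin d → ℚ) (s : ℕ → ℚ) (n : ℕ) :
    (symz a s n)ᵀ = symz a s n := by
  unfold symz
  rw [Matrix.transpose_sum]
  refine Finset.sum_congr rfl fun k _ => ?_
  rw [Matrix.transpose_smul, Matrix.transpose_sum]
  congr 1
  rw [← Finset.sum_range_reflect]
  refine Finset.sum_congr rfl fun i hi => ?_
  rw [Matrix.transpose_vecMulVec]
  have := Finset.mem_range.1 hi
  have h1 : k - 1 - (k - 1 - i) = i := by omega
  rw [h1]

theorem symz_mul (s : ℕ → ℚ) (n : ℕ) (hs : ∑ k ∈ Finset.range (n + 1), s k • orb A φ k = 0) :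
    (symz (orb A φ) s n * A)ᵀ = symz (orb A φ) s n * A := by
  set a := orb A φ with ha
  have h1 : symz a s n * A = ∑ k ∈ Finset.range (n + 1), s k • ∑ i ∈ Finset.range k,
      vecMulVec (a i) (a (k - i)) := by
    unfold symz
    rw [Matrix.sum_mul]
    refine Finset.sum_congr rfl fun k _ => ?_
    rw [Matrix.smul_mul, Matrix.sum_mul]
    congr 1
    refine Finset.sum_congr rfl fun i hi => ?_
    have := Finset.mem_range.1 hi
    rw [Matrix.vecMulVec_mul, ha, orb_succ]
    congr 2
    omega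
  have h2 : (symz a s n * A)ᵀ = ∑ k ∈ Finset.range (n + 1), s k • ∑ i ∈ Finset.range k,
      vecMulVec (a (i + 1)) (a (k - (i + 1))) := by
    rw [h1, Matrix.transpose_sum]
    refine Finset.sum_congr rfl fun k _ => ?_
    rw [Matrix.transpose_smul, Matrix.transpose_sum]
    congr 1
    rw [← Finset.sum_range_reflect]
    refine Finset.sum_congr rfl fun i hi => ?_
    have := Finset.mem_range.1 hi
    rw [Matrix.transpose_vecMulVec]
    congr 2 <;> omega
  have h3 : symz a s n * A - (symz a s n * A)ᵀ = 0 := by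
    rw [h2, h1, ← Finset.sum_sub_distrib]
    have h4 : ∀ k ∈ Finset.range (n + 1), (s k • ∑ i ∈ Finset.range k,
        vecMulVec (a i) (a (k - i)) - s k • ∑ i ∈ Finset.range k,
        vecMulVec (a (i + 1)) (a (k - (i + 1)))) =
        vecMulVec (a 0) (s k • a k) - vecMulVec (s k • a k) (a 0) := by
      intro k _
      rw [← smul_sub, ← Finset.sum_sub_distrib,
        Finset.sum_range_sub' (fun i => vecMulVec (a i) (a (k - i))) k, Nat.sub_zero, Nat.sub_self,
        smul_sub, Matrix.vecMulVec_smul, Matrix.smul_vecMulVec]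
    rw [Finset.sum_congr rfl h4, Finset.sum_sub_distrib]
    have h5 : ∑ k ∈ Finset.range (n + 1), vecMulVec (a 0) (s k • a k) =
        vecMulVec (a 0) (∑ k ∈ Finset.range (n + 1), s k • a k) := by
      ext i j
      simp [Matrix.vecMulVec_apply, Matrix.sum_apply, Finset.mul_sum]
      exact Finset.sum_congr rfl fun _ _ => by ring
    have h6 : ∑ k ∈ Finset.range (n + 1), vecMulVec (s k • a k) (a 0) =
        vecMulVec (∑ k ∈ Finset.range (n + 1), s k • a k) (a 0) := by
      ext i j
      simp [Matrix.vecMulVec_apply, Matrix.sum_apply, Finset.sum_mul]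
      exact Finset.sum_congr rfl fun _ _ => by ring
    rw [h5, h6, hs]
    ext i j
    simp [Matrix.vecMulVec_apply]
  exact (sub_eq_zero.1 h3).symm

theorem exists_sym_rat (hA : A * A ≠ A) : ∃ S : Matrix (Fin d) (Fin d) ℚ,
    Sᵀ = S ∧ (S * A)ᵀ = S * A ∧ S * (A * A - A) ≠ 0 := by
  classical
  have h1 : A * A - A ≠ 0 := sub_ne_zero.2 hA
  obtain ⟨i, hi⟩ : ∃ i, (A * A - A) i ≠ 0 := by
    by_contra hcon
    push Not at hcon
    exact h1 (funext hcon)
  set φ : Fin d → ℚ := Pi.single i 1 with hφ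
  have hφN : φ ᵥ* (A * A - A) ≠ 0 := by
    rw [hφ, Matrix.single_one_vecMul]
    exact hi
  have hφ0 : φ ≠ 0 := by
    rintro h
    rw [h, Matrix.zero_vecMul] at hφN
    exact hφN rfl
  let P : ℕ → Prop := fun n => orb A φ n ∈ Submodule.span ℚ (Set.range fun j : Fin n => orb A φ j)
  have hP : ∃ n, P n := ⟨d, orb_dep A φ⟩
  set n := Nat.find hP with hn
  have hPn : P n := Nat.find_spec hP
  have hn0 : n ≠ 0 := by
    intro h
    have h2 : P 0 := h ▸ hPn
    have h3 : orb A φ 0 ∈ Submodule.span ℚ (Set.range fun j : Fin 0 => orb A φ j) := h2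
    rw [orb_zero, Set.range_eq_empty, Submodule.span_empty, Submodule.mem_bot] at h3
    exact hφ0 h3
  obtain ⟨m, hm⟩ := Nat.exists_eq_succ_of_ne_zero hn0
  have hPm : ¬ P m := Nat.find_min hP (by omega)
  obtain ⟨f, hf1, hf2⟩ := Submodule.exists_le_ker_of_notMem hPm
  have hf3 : ∀ j < m, f (orb A φ j) = 0 := by
    intro j hj
    exact hf2 (Submodule.subset_span ⟨⟨j, hj⟩, rfl⟩)
  obtain ⟨c, hc⟩ := (Submodule.mem_span_range_iff_exists_fun ℚ).1 hPn
  set s : ℕ → ℚ := fun k => if h : k < n then -c ⟨k, h⟩ else 1 with hs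
  have hsum : ∑ k ∈ Finset.range (n + 1), s k • orb A φ k = 0 := by
    rw [Finset.sum_range_succ, Finset.sum_range]
    have h4 : s n = 1 := by simp [hs]
    rw [h4, one_smul, ← hc, ← Finset.sum_add_distrib]
    apply Finset.sum_eq_zero
    intro j _
    have : s (j : ℕ) = -c j := by simp [hs]
    rw [this, neg_smul, neg_add_cancel]
  refine ⟨symz (orb A φ) s n, symz_transpose _ _ _, symz_mul A φ s n hsum, ?_⟩
  intro hzero
  -- the functional as a vector
  set w : Fin d → ℚ := fun j => f (Pi.single j 1) with hw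
  have hfw : ∀ x : Fin d → ℚ, f x = w ⬝ᵥ x := by
    intro x
    conv_lhs => rw [← Finset.univ_sum_single x]
    rw [map_sum]
    unfold dotProduct
    refine Finset.sum_congr rfl fun j _ => ?_
    have : (Pi.single j (x j) : Fin d → ℚ) = x j • Pi.single j 1 := by
      rw [← Pi.single_smul]; simp
    rw [this, map_smul, smul_eq_mul, mul_comm]
  have h5 : w ᵥ* symz (orb A φ) s n = f (orb A φ m) • φ := by
    unfold symz
    rw [Matrix.vecMul_sum, Finset.sum_range_succ, Finset.sum_eq_zero, zero_add]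
    · rw [Matrix.vecMul_smul, Matrix.vecMul_sum, hm, Finset.sum_range_succ, Finset.sum_eq_zero,
        zero_add]
      · have h6 : s (m + 1) = 1 := by
          rw [hs]; simp [hm]
        have h7 : m + 1 - 1 - m = 0 := by omega
        rw [show m.succ = m + 1 from rfl, h6, one_smul, h7, orb_zero, Matrix.vecMul_vecMulVec,
          ← hfw]
      · intro j hj
        rw [Matrix.vecMul_vecMulVec, ← hfw, hf3 j (Finset.mem_range.1 hj), zero_smul]
    · intro k hk
      rw [Matrix.vecMul_smul, Matrix.vecMul_sum, Finset.sum_eq_zero, smul_zero]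
      intro j hj
      have h8 := Finset.mem_range.1 hk
      have h9 := Finset.mem_range.1 hj
      rw [Matrix.vecMul_vecMulVec, ← hfw, hf3 j (by omega), zero_smul]
  have h10 : w ᵥ* (symz (orb A φ) s n * (A * A - A)) = 0 := by
    rw [hzero, Matrix.vecMul_zero]
  rw [← Matrix.vecMul_vecMul, h5, Matrix.smul_vecMul] at h10
  rcases smul_eq_zero.1 h10 with h | h
  · exact hf1 h
  · exact hφN h

end rat

/-- every integer matrix `A` with `A² ≠ A` is self-adjoint for an integral symmetric form which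
does not kill `A² - A` -/
theorem exists_sym {d : ℕ} (A : Matrix (Fin d) (Fin d) ℤ) (hA : A * A ≠ A) :
    ∃ S : Matrix (Fin d) (Fin d) ℤ, Sᵀ = S ∧ (S * A)ᵀ = S * A ∧ S * A * A - S * A ≠ 0 := by
  set A' : Matrix (Fin d) (Fin d) ℚ := A.map (Int.castRingHom ℚ) with hA'
  have hinj : ∀ M N : Matrix (Fin d) (Fin d) ℤ,
      M.map (Int.castRingHom ℚ) = N.map (Int.castRingHom ℚ) → M = N := by
    intro M N h
    ext i j
    have := congrFun (congrFun h i) j
    simpa using this
  have hmul : ∀ M N : Matrix (Fin d) (Fin d) ℤ, (M * N).map (Int.castRingHom ℚ) =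
      M.map (Int.castRingHom ℚ) * N.map (Int.castRingHom ℚ) := fun M N => Matrix.map_mul
  have h1 : A' * A' ≠ A' := by
    intro h
    apply hA
    apply hinj
    rw [hmul]
    exact h
  obtain ⟨S, hS1, hS2, hS3⟩ := exists_sym_rat A' h1
  obtain ⟨b, hb⟩ := IsLocalization.exist_integer_multiples_of_finite (nonZeroDivisors ℤ)
    (fun p : Fin d × Fin d => S p.1 p.2)
  choose z hz using hb
  have hb0 : ((b : ℤ) : ℚ) ≠ 0 := by
    exact_mod_cast nonZeroDivisors.coe_ne_zero b
  set S' : Matrix (Fin d) (Fin d) ℤ := Matrix.of fun i j => z (i, j) with hS'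
  have h2 : S'.map (Int.castRingHom ℚ) = ((b : ℤ) : ℚ) • S := by
    ext i j
    have := hz (i, j)
    simp only [algebraMap_int_eq, eq_intCast, zsmul_eq_mul] at this
    simp only [hS', Matrix.map_apply, Matrix.of_apply, eq_intCast, Matrix.smul_apply, smul_eq_mul]
    exact this
  refine ⟨S', ?_, ?_, ?_⟩
  · apply hinj
    rw [Matrix.transpose_map, h2, Matrix.transpose_smul, hS1]
  · apply hinj
    rw [Matrix.transpose_map, hmul, h2, Matrix.smul_mul, Matrix.transpose_smul, hS2]
  · intro h
    apply hS3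
    have h3 : (S' * A * A).map (Int.castRingHom ℚ) = (S' * A).map (Int.castRingHom ℚ) := by
      rw [sub_eq_zero.1 h]
    rw [hmul, hmul, h2, Matrix.smul_mul, Matrix.smul_mul] at h3
    have h4 := smul_right_injective _ hb0 h3
    have h5 : S * A' * A' = S * A' := h4
    rw [Matrix.mul_sub, ← Matrix.mul_assoc, h5, sub_self]

end KS6Nil
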