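import Pool.Agent.KS6_1.Nil.Quad
import Pool.Agent.KS6_1.Nil.Sym
import Pool.Agent.KS6_1.Nil.Pos

open MeasureTheory Filter Topology ENNReal Matrix
open scoped ComplexConjugate

namespace KS6Nil

/-- the space -/
abbrev Spc (d : ℕ) : Type := (Fin d → UnitAddCircle) × (UnitAddCircle × UnitAddCircle)

/-- the cocycle of a symmetric matrix -/
noncomputable def coc {d : ℕ} (B : Matrix (Fin d) (Fin d) ℤ) (α : UnitAddCircle) (u : Fin d → ℤ)
    (x : Fin d → UnitAddCircle) : UnitAddCircle :=
  (∑ i, (2 * (B *ᵥ u) i) • x i) + (u ⬝ᵥ B *ᵥ u) • α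

theorem coc_add {d : ℕ} (B : Matrix (Fin d) (Fin d) ℤ) (hB : Bᵀ = B) (α : UnitAddCircle)
    (u v : Fin d → ℤ) (x : Fin d → UnitAddCircle) :
    coc B α (u + v) x = coc B α v x + coc B α u (fun i => x i + v i • α) := by
  unfold coc
  have h1 : (u + v) ⬝ᵥ B *ᵥ (u + v) = u ⬝ᵥ B *ᵥ u + v ⬝ᵥ B *ᵥ v + 2 * ((B *ᵥ u) ⬝ᵥ v) := by
    rw [Matrix.mulVec_add, dotProduct_add, add_dotProduct, add_dotProduct]
    have h2 : u ⬝ᵥ B *ᵥ v = (B *ᵥ u) ⬝ᵥ v := by
      rw [Matrix.dotProduct_mulVec, ← Matrix.mulVec_transpose, hB]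
    have h3 : v ⬝ᵥ B *ᵥ u = (B *ᵥ u) ⬝ᵥ v := dotProduct_comm _ _
    rw [h2, h3]; ring
  have h4 : ∑ i, (2 * (B *ᵥ (u + v)) i) • x i = ∑ i, (2 * (B *ᵥ u) i) • x i +
      ∑ i, (2 * (B *ᵥ v) i) • x i := by
    rw [← Finset.sum_add_distrib]
    refine Finset.sum_congr rfl fun i _ => ?_
    rw [Matrix.mulVec_add, Pi.add_apply, ← add_smul]
    congr 1
    ring
  have h5 : ∑ i, (2 * (B *ᵥ u) i) • (x i + v i • α) = ∑ i, (2 * (B *ᵥ u) i) • x i +
      (2 * ((B *ᵥ u) ⬝ᵥ v)) • α := by
    simp only [smul_add]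
    rw [Finset.sum_add_distrib]
    congr 1
    unfold dotProduct
    rw [Finset.mul_sum, Finset.sum_smul]
    refine Finset.sum_congr rfl fun i _ => ?_
    rw [smul_smul]
    congr 1
    ring
  rw [h1, h4, h5, add_smul, add_smul]
  abel

/-- the action -/
noncomputable def act {d : ℕ} (S A : Matrix (Fin d) (Fin d) ℤ) (α : UnitAddCircle)
    (u : Fin d → ℤ) (p : Spc d) : Spc d :=
  (fun i => p.1 i + u i • α, (p.2.1 + coc S α u p.1, p.2.2 - coc (S * A) α u p.1))

section
variable {d : ℕ} (S A : Matrix (Fin d) (Fin d) ℤ) (α : UnitAddCircle)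

theorem act_zero (p : Spc d) : act S A α 0 p = p := by
  unfold act coc
  simp

theorem act_add (hS : Sᵀ = S) (hSA : (S * A)ᵀ = S * A) (u v : Fin d → ℤ) (p : Spc d) :
    act S A α (u + v) p = act S A α u (act S A α v p) := by
  unfold act
  refine Prod.ext ?_ (Prod.ext ?_ ?_)
  · funext i
    simp only [Pi.add_apply, add_smul]
    abel
  · simp only
    rw [coc_add S hS, add_assoc]
  · simp only
    rw [coc_add (S * A) hSA]
    abel

theorem coc_measurable (B : Matrix (Fin d) (Fin d) ℤ) (u : Fin d → ℤ) :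
    Measurable fun x : Fin d → UnitAddCircle => coc B α u x := by
  apply Continuous.measurable
  unfold coc
  refine Continuous.add ?_ continuous_const
  refine continuous_finsetSum _ fun i _ => ?_
  exact (continuous_apply i).zsmul _

theorem prob_circle : IsProbabilityMeasure (volume : Measure UnitAddCircle) :=
  ⟨UnitAddCircle.measure_univ⟩

theorem act_mp (u : Fin d → ℤ) :
    MeasurePreserving (act S A α u) (volume : Measure (Spc d)) volume := by
  have hp := prob_circle
  have h1 : MeasurePreserving (fun x : Fin d → UnitAddCircle => fun i => x i + u i • α)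
      (volume : Measure (Fin d → UnitAddCircle)) volume :=
    measurePreserving_add_right (volume : Measure (Fin d → UnitAddCircle)) (fun i => u i • α)
  exact MeasurePreserving.skew_product
    (μa := (volume : Measure (Fin d → UnitAddCircle)))
    (μb := (volume : Measure (Fin d → UnitAddCircle)))
    (μc := (volume : Measure (UnitAddCircle × UnitAddCircle)))
    (μd := (volume : Measure (UnitAddCircle × UnitAddCircle))) h1
    (g := fun x y => (y.1 + coc S α u x, y.2 - coc (S * A) α u x)) (by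
      have h2 : Measurable fun q : (Fin d → UnitAddCircle) × (UnitAddCircle × UnitAddCircle) =>
          coc S α u q.1 := (coc_measurable α S u).comp measurable_fst
      have h3 : Measurable fun q : (Fin d → UnitAddCircle) × (UnitAddCircle × UnitAddCircle) =>
          coc (S * A) α u q.1 := (coc_measurable α (S * A) u).comp measurable_fst
      exact ((measurable_fst.comp measurable_snd).add h2).prodMk
        ((measurable_snd.comp measurable_snd).sub h3))
    (Filter.Eventually.of_forall fun x =>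
      ((measurePreserving_add_right (volume : Measure UnitAddCircle) (coc S α u x)).prod
        (measurePreserving_sub_right (volume : Measure UnitAddCircle)
          (coc (S * A) α u x))).map_eq)

theorem smul_ne (θ : ℝ) (hθ : Irrational θ) (n : ℤ) (hn : n ≠ 0) :
    n • (θ : UnitAddCircle) ≠ 0 := by
  intro h
  rw [← AddCircle.coe_zsmul, AddCircle.coe_eq_zero_iff] at h
  obtain ⟨m, hm⟩ := h
  rw [zsmul_eq_mul, zsmul_eq_mul, mul_one] at hm
  have hn' : (n : ℝ) ≠ 0 := by exact_mod_cast hn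
  apply hθ
  refine ⟨(m : ℚ) / n, ?_⟩
  push_cast
  rw [div_eq_iff hn', hm]
  ring

theorem act_free (θ : ℝ) (hθ : Irrational θ) (u : Fin d → ℤ) (hu : u ≠ 0) (p : Spc d) :
    act S A (θ : UnitAddCircle) u p ≠ p := by
  intro h
  apply hu
  funext i
  by_contra hi
  have h1 : p.1 i + u i • (θ : UnitAddCircle) = p.1 i := congrFun (congrArg Prod.fst h) i
  exact smul_ne θ hθ (u i) hi (add_eq_left.1 h1)

theorem single_zero (p : Spc d) : (volume : Measure (Spc d)) {p} = 0 := by
  have hp := prob_circle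
  have h2 : ∀ y : UnitAddCircle, (volume : Measure UnitAddCircle) {y} = 0 := by
    intro y
    have h3 := AddCircle.volume_closedBall (1 : ℝ) (x := y) 0
    rw [Metric.closedBall_zero] at h3
    rw [h3]
    simp
  have h1 : ({p} : Set (Spc d)) = {p.1} ×ˢ {p.2} := by
    ext ⟨a, b⟩
    simp [Prod.ext_iff]
  have h4 : ({p.2} : Set (UnitAddCircle × UnitAddCircle)) = {p.2.1} ×ˢ {p.2.2} := by
    ext ⟨a, b⟩
    simp [Prod.ext_iff]
  rw [h1]
  show ((volume : Measure (Fin d → UnitAddCircle)).prod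
    (volume : Measure (UnitAddCircle × UnitAddCircle))) _ = 0
  rw [Measure.prod_prod, h4]
  have h5 : (volume : Measure (UnitAddCircle × UnitAddCircle)) ({p.2.1} ×ˢ {p.2.2}) = 0 := by
    show ((volume : Measure UnitAddCircle).prod (volume : Measure UnitAddCircle)) _ = 0
    rw [Measure.prod_prod, h2, zero_mul]
  rw [h5, mul_zero]

/-- the functions -/
noncomputable def fF (p : Spc d) : ℂ := (AddCircle.toCircle (-(p.2.1 + p.2.2)) : Circle)
/-- the functions -/
noncomputable def fG (p : Spc d) : ℂ := (AddCircle.toCircle p.2.2 : Circle)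
/-- the functions -/
noncomputable def fH (p : Spc d) : ℂ := (AddCircle.toCircle p.2.1 : Circle)

theorem toCircle_zsmul' (x : UnitAddCircle) (n : ℤ) :
    AddCircle.toCircle (n • x) = (AddCircle.toCircle x) ^ n := by
  exact AddCircle.toCircle_zsmul x n

theorem integrand (hSA : (S * A)ᵀ = S * A) (v : Fin d → ℤ) (p : Spc d) :
    fF p * fG (act S A α v p) * fH (act S A α (A *ᵥ v) p) =
      qph (AddCircle.toCircle α) (S * A * A - S * A) v := by
  unfold fF fG fH act qph
  simp only
  rw [← Circle.coe_mul, ← Circle.coe_mul, ← AddCircle.toCircle_add, ← AddCircle.toCircle_add,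
    ← toCircle_zsmul']
  congr 2
  unfold coc
  have h1 : ∀ i, (S *ᵥ (A *ᵥ v)) i = ((S * A) *ᵥ v) i := fun i => by
    rw [Matrix.mulVec_mulVec]
  have h2 : (A *ᵥ v) ⬝ᵥ S *ᵥ (A *ᵥ v) = v ⬝ᵥ (S * A * A) *ᵥ v := by
    have h3 : S *ᵥ (A *ᵥ v) = (S * A) *ᵥ v := Matrix.mulVec_mulVec _ _ _
    rw [h3, ← Matrix.mulVec_mulVec v (S * A) A, Matrix.dotProduct_mulVec v (S * A) (A *ᵥ v),
      ← Matrix.mulVec_transpose, hSA, dotProduct_comm]
  have h4 : v ⬝ᵥ (S * A * A - S * A) *ᵥ v = v ⬝ᵥ (S * A * A) *ᵥ v - v ⬝ᵥ (S * A) *ᵥ v := by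
    rw [Matrix.sub_mulVec, dotProduct_sub]
  rw [h4, h2, sub_smul]
  simp only [h1]
  abel

end

end KS6Nil
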