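import Pool.Agent.KS6_1.Nil.Folner
import Pool.Agent.KS6_1.Nil.Eig

open Filter Topology
open scoped InnerProductSpace ComplexConjugate

namespace KS6Nil

variable {H : Type*} [NormedAddCommGroup H] [InnerProductSpace ℂ H]

/-- the averaged form -/
noncomputable def form {ι : Type*} (C : Finset ι) (x : ι → H) (ξ η : H) : ℂ :=
  ((C.card : ℂ))⁻¹ * ∑ k ∈ C, ⟪ξ, x k⟫_ℂ * ⟪x k, η⟫_ℂ

theorem form_norm_le {ι : Type*} (C : Finset ι) (x : ι → H) (r : ℝ) (hx : ∀ k, ‖x k‖ = r) (ξ η : H) :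
    ‖form C x ξ η‖ ≤ r ^ 2 * ‖ξ‖ * ‖η‖ := by
  unfold form
  rcases C.eq_empty_or_nonempty with h | h
  · rw [h]; simp; positivity
  have hc : (0 : ℝ) < C.card := by exact_mod_cast h.card_pos
  rw [norm_mul, norm_inv, Complex.norm_natCast, inv_mul_le_iff₀ hc]
  calc ‖∑ k ∈ C, ⟪ξ, x k⟫_ℂ * ⟪x k, η⟫_ℂ‖ ≤ ∑ k ∈ C, ‖⟪ξ, x k⟫_ℂ * ⟪x k, η⟫_ℂ‖ := norm_sum_le _ _
    _ ≤ ∑ k ∈ C, (r ^ 2 * ‖ξ‖ * ‖η‖) := by
        refine Finset.sum_le_sum fun k _ => ?_
        rw [norm_mul]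
        have h1 := norm_inner_le_norm (𝕜 := ℂ) ξ (x k)
        have h2 := norm_inner_le_norm (𝕜 := ℂ) (x k) η
        rw [hx k] at h1 h2
        calc _ ≤ (‖ξ‖ * r) * (r * ‖η‖) :=
              mul_le_mul h1 h2 (norm_nonneg _) ((norm_nonneg _).trans h1)
          _ = _ := by ring
    _ = _ := by rw [Finset.sum_const, nsmul_eq_mul]

theorem form_self {ι : Type*} (C : Finset ι) (x : ι → H) (ξ : H) :
    form C x ξ ξ = (((C.card : ℝ)⁻¹ * ∑ k ∈ C, ‖⟪x k, ξ⟫_ℂ‖ ^ 2 : ℝ) : ℂ) := by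
  unfold form
  push_cast
  congr 1
  refine Finset.sum_congr rfl fun k _ => ?_
  rw [← inner_conj_symm ξ (x k), ← Complex.normSq_eq_conj_mul_self, Complex.normSq_eq_norm_sq]
  push_cast
  rfl

theorem form_cs {ι : Type*} (C : Finset ι) (x : ι → H) (r : ℝ) (hx : ∀ k, ‖x k‖ = r) (ξ η : H) :
    ‖form C x ξ η‖ ^ 2 ≤ (form C x ξ ξ).re * (r ^ 2 * ‖η‖ ^ 2) := by
  rcases C.eq_empty_or_nonempty with h | h
  · unfold form; rw [h]; simp
  have hc : (0 : ℝ) < C.card := by exact_mod_cast h.card_pos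
  rw [form_self, Complex.ofReal_re]
  unfold form
  rw [norm_mul, norm_inv, Complex.norm_natCast, mul_pow]
  have h1 : ‖∑ k ∈ C, ⟪ξ, x k⟫_ℂ * ⟪x k, η⟫_ℂ‖ ^ 2 ≤
      (∑ k ∈ C, ‖⟪x k, ξ⟫_ℂ‖ ^ 2) * (C.card * (r ^ 2 * ‖η‖ ^ 2)) := by
    have h2 : ‖∑ k ∈ C, ⟪ξ, x k⟫_ℂ * ⟪x k, η⟫_ℂ‖ ≤ ∑ k ∈ C, ‖⟪x k, ξ⟫_ℂ‖ * (r * ‖η‖) := by
      refine (norm_sum_le _ _).trans (Finset.sum_le_sum fun k _ => ?_)
      rw [norm_mul, norm_inner_symm ξ (x k)]
      have h3 := norm_inner_le_norm (𝕜 := ℂ) (x k) η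
      rw [hx k] at h3
      gcongr
    calc _ ≤ (∑ k ∈ C, ‖⟪x k, ξ⟫_ℂ‖ * (r * ‖η‖)) ^ 2 := pow_le_pow_left₀ (norm_nonneg _) h2 2
      _ ≤ (∑ k ∈ C, ‖⟪x k, ξ⟫_ℂ‖ ^ 2) * ∑ k ∈ C, (r * ‖η‖) ^ 2 :=
          Finset.sum_mul_sq_le_sq_mul_sq _ _ _
      _ = _ := by rw [Finset.sum_const, nsmul_eq_mul]; ring
  calc _ ≤ ((C.card : ℝ)⁻¹) ^ 2 * ((∑ k ∈ C, ‖⟪x k, ξ⟫_ℂ‖ ^ 2) * (C.card * (r ^ 2 * ‖η‖ ^ 2))) := by
        gcongr
    _ = _ := by field_simp

theorem form_trace {ι : Type*} (C : Finset ι) (x : ι → H) (r : ℝ) (hx : ∀ k, ‖x k‖ = r)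
    (s : Finset H) (hs : Orthonormal ℂ (Subtype.val : s → H)) :
    ∑ e ∈ s, (form C x e e).re ≤ r ^ 2 := by
  rcases C.eq_empty_or_nonempty with h | h
  · unfold form; rw [h]; simp; positivity
  have hc : (0 : ℝ) < C.card := by exact_mod_cast h.card_pos
  simp only [form_self, Complex.ofReal_re]
  rw [← Finset.mul_sum, Finset.sum_comm, inv_mul_le_iff₀ hc]
  calc ∑ k ∈ C, ∑ e ∈ s, ‖⟪x k, e⟫_ℂ‖ ^ 2 ≤ ∑ k ∈ C, r ^ 2 := by
        refine Finset.sum_le_sum fun k _ => ?_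
        have h1 := hs.sum_inner_products_le (x k) (s := Finset.univ)
        rw [hx k] at h1
        rw [← Finset.sum_coe_sort s]
        refine le_trans (le_of_eq ?_) h1
        refine Finset.sum_congr rfl fun e _ => ?_
        rw [norm_inner_symm]
    _ = _ := by rw [Finset.sum_const, nsmul_eq_mul]

theorem form_add_left {ι : Type*} (C : Finset ι) (x : ι → H) (ξ ξ' η : H) :
    form C x (ξ + ξ') η = form C x ξ η + form C x ξ' η := by
  unfold form
  rw [← mul_add, ← Finset.sum_add_distrib]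
  congr 1
  refine Finset.sum_congr rfl fun k _ => ?_
  rw [inner_add_left]; ring

theorem form_add_right {ι : Type*} (C : Finset ι) (x : ι → H) (ξ η η' : H) :
    form C x ξ (η + η') = form C x ξ η + form C x ξ η' := by
  unfold form
  rw [← mul_add, ← Finset.sum_add_distrib]
  congr 1
  refine Finset.sum_congr rfl fun k _ => ?_
  rw [inner_add_right]; ring

theorem form_smul_left {ι : Type*} (C : Finset ι) (x : ι → H) (c : ℂ) (ξ η : H) :
    form C x (c • ξ) η = conj c * form C x ξ η := by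
  unfold form
  rw [mul_left_comm]
  congr 1
  rw [Finset.mul_sum]
  refine Finset.sum_congr rfl fun k _ => ?_
  rw [inner_smul_left]; ring

theorem form_smul_right {ι : Type*} (C : Finset ι) (x : ι → H) (c : ℂ) (ξ η : H) :
    form C x ξ (c • η) = c * form C x ξ η := by
  unfold form
  rw [mul_left_comm]
  congr 1
  rw [Finset.mul_sum]
  refine Finset.sum_congr rfl fun k _ => ?_
  rw [inner_smul_right]; ring

theorem form_conj {ι : Type*} (C : Finset ι) (x : ι → H) (ξ η : H) :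
    form C x η ξ = conj (form C x ξ η) := by
  unfold form
  rw [map_mul, map_inv₀, Complex.conj_natCast, map_sum]
  congr 1
  refine Finset.sum_congr rfl fun k _ => ?_
  rw [map_mul, inner_conj_symm, inner_conj_symm]; ring

theorem exists_limit {ι : Type*} (C : ℕ → Finset ι) (x : ι → H) (r : ℝ) (hx : ∀ k, ‖x k‖ = r)
    (𝒰 : Ultrafilter ℕ) (ξ η : H) :
    ∃ z : ℂ, Tendsto (fun n => form (C n) x ξ η) 𝒰 (𝓝 z) := by
  have hc := (isCompact_closedBall (0 : ℂ) (r ^ 2 * ‖ξ‖ * ‖η‖)).ultrafilter_le_nhds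
    (𝒰.map fun n => form (C n) x ξ η) (by
      rw [le_principal_iff]
      refine Filter.mem_map.2 (Filter.univ_mem' fun n => ?_)
      show form (C n) x ξ η ∈ Metric.closedBall 0 _
      rw [mem_closedBall_zero_iff]
      exact form_norm_le (C n) x r hx ξ η)
  obtain ⟨z, -, hz⟩ := hc
  exact ⟨z, hz⟩

theorem exists_op [CompleteSpace H] {ι : Type*} (C : ℕ → Finset ι) (x : ι → H) (r : ℝ)
    (hx : ∀ k, ‖x k‖ = r) (𝒰 : Ultrafilter ℕ) :
    ∃ Φ : H →L[ℂ] H, ∀ ξ η, Tendsto (fun n => form (C n) x ξ η) 𝒰 (𝓝 ⟪Φ ξ, η⟫_ℂ) := by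
  choose Λ hΛ using exists_limit C x r hx 𝒰
  let L : H →ₛₗ[starRingEnd ℂ] H →ₗ[ℂ] ℂ := LinearMap.mk₂'ₛₗ (starRingEnd ℂ) (RingHom.id ℂ) Λ
    (fun ξ ξ' η => tendsto_nhds_unique (hΛ (ξ + ξ') η) (by
      simp only [form_add_left]
      exact (hΛ ξ η).add (hΛ ξ' η)))
    (fun c ξ η => tendsto_nhds_unique (hΛ (c • ξ) η) (by
      simp only [form_smul_left]
      exact (hΛ ξ η).const_mul (conj c)))
    (fun ξ η η' => tendsto_nhds_unique (hΛ ξ (η + η')) (by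
      simp only [form_add_right]
      exact (hΛ ξ η).add (hΛ ξ η')))
    (fun c ξ η => tendsto_nhds_unique (hΛ ξ (c • η)) (by
      simp only [form_smul_right]
      exact (hΛ ξ η).const_mul c))
  have hb : ∀ ξ η, ‖L ξ η‖ ≤ r ^ 2 * ‖ξ‖ * ‖η‖ := fun ξ η =>
    le_of_tendsto (hΛ ξ η).norm (Filter.Eventually.of_forall fun n => form_norm_le (C n) x r hx ξ η)
  refine ⟨InnerProductSpace.continuousLinearMapOfBilin (L.mkContinuous₂ (r ^ 2) hb), fun ξ η => ?_⟩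
  rw [InnerProductSpace.continuousLinearMapOfBilin_apply]
  exact hΛ ξ η

/-- a positive operator of finite trace is compact -/
theorem compact_of_trace [CompleteSpace H] (Φ : H →L[ℂ] H) (M : ℝ) (hM : 0 ≤ M)
    (h1 : ∀ ξ η, ‖⟪Φ ξ, η⟫_ℂ‖ ^ 2 ≤ (⟪Φ ξ, ξ⟫_ℂ).re * (M * ‖η‖ ^ 2))
    (h2 : ∀ s : Finset H, Orthonormal ℂ (Subtype.val : s → H) → ∑ e ∈ s, (⟪Φ e, e⟫_ℂ).re ≤ M) :
    IsCompactOperator Φ := by
  -- finite dimensional pieces
  have key : ∀ δ : ℝ, 0 < δ → ∃ V : Submodule ℂ H, FiniteDimensional ℂ V ∧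
      ∀ ξ ∈ Vᗮ, (⟪Φ ξ, ξ⟫_ℂ).re ≤ δ * ‖ξ‖ ^ 2 := by
    intro δ hδ
    classical
    let P : ℕ → Prop := fun n => ∃ s : Finset H, s.card = n ∧
      Orthonormal ℂ (Subtype.val : s → H) ∧ ∀ e ∈ s, δ ≤ (⟪Φ e, e⟫_ℂ).re
    have hP0 : P 0 := ⟨∅, rfl, by
      refine ⟨fun i => ?_, fun i => ?_⟩ <;> exact absurd i.2 (Finset.notMem_empty _), by simp⟩
    have hbd : ∀ n, P n → n ≤ ⌊M / δ⌋₊ := by
      rintro n ⟨s, hs, ho, he⟩
      apply Nat.le_floor
      rw [le_div_iff₀ hδ, ← hs]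
      calc (s.card : ℝ) * δ = ∑ e ∈ s, δ := by rw [Finset.sum_const, nsmul_eq_mul]
        _ ≤ ∑ e ∈ s, (⟪Φ e, e⟫_ℂ).re := Finset.sum_le_sum he
        _ ≤ M := h2 s ho
    have hg := Nat.findGreatest_spec (P := P) (Nat.zero_le ⌊M / δ⌋₊) hP0
    set n := Nat.findGreatest P ⌊M / δ⌋₊ with hn
    obtain ⟨s, hs, ho, he⟩ := hg
    refine ⟨Submodule.span ℂ (s : Set H), FiniteDimensional.span_finset ℂ s, fun ξ hξ => ?_⟩
    by_contra hcon
    push Not at hcon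
    have hξ0 : ξ ≠ 0 := by
      rintro rfl
      simp at hcon
    have hξn : (0 : ℝ) < ‖ξ‖ := norm_pos_iff.2 hξ0
    set ζ : H := ((‖ξ‖ : ℂ))⁻¹ • ξ with hζ
    have hζn : ‖ζ‖ = 1 := by
      rw [hζ, norm_smul, norm_inv, Complex.norm_real, norm_norm, inv_mul_cancel₀ hξn.ne']
    have hζΦ : δ ≤ (⟪Φ ζ, ζ⟫_ℂ).re := by
      have h5 : ⟪Φ ζ, ζ⟫_ℂ = (((‖ξ‖ ^ 2)⁻¹ : ℝ) : ℂ) * ⟪Φ ξ, ξ⟫_ℂ := by
        rw [hζ, map_smul, inner_smul_left, inner_smul_right, map_inv₀, Complex.conj_ofReal]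
        push_cast
        ring
      rw [h5, Complex.re_ofReal_mul, inv_mul_eq_div, le_div_iff₀ (by positivity)]
      exact hcon.le
    have hζs : ∀ e ∈ s, ⟪e, ζ⟫_ℂ = 0 := by
      intro e hes
      rw [hζ, inner_smul_right, (Submodule.mem_orthogonal _ _).1 hξ e (Submodule.subset_span hes),
        mul_zero]
    have hns : ζ ∉ s := by
      intro hmem
      have := hζs ζ hmem
      rw [inner_self_eq_zero] at this
      rw [this, norm_zero] at hζn
      exact zero_ne_one hζn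
    have hP : P (n + 1) := by
      refine ⟨insert ζ s, by rw [Finset.card_insert_of_notMem hns, hs], ?_, ?_⟩
      · have ho' := (orthonormal_subtype_iff_ite (s := (s : Set H))).1 ho
        refine (orthonormal_subtype_iff_ite (s := ((insert ζ s : Finset H) : Set H))).2 ?_
        intro v hv w hw
        rw [Finset.mem_coe, Finset.mem_insert] at hv hw
        rcases hv with rfl | hv <;> rcases hw with rfl | hw
        · rw [if_pos rfl, inner_self_eq_norm_sq_to_K, hζn]; simp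
        · rw [if_neg (by intro h; rw [h] at hns; exact hns hw), ← inner_conj_symm, hζs w hw, map_zero]
        · rw [if_neg (by intro h; rw [← h] at hns; exact hns hv), hζs v hv]
        · exact ho' v hv w hw
      · intro e hes
        rcases Finset.mem_insert.1 hes with rfl | hes
        · exact hζΦ
        · exact he e hes
    have := Nat.le_findGreatest (P := P) (hbd _ hP) hP
    omega
  -- approximation by finite rank operators
  choose V hV hVb using fun n : ℕ => key (1 / ((n : ℝ) + 1)) (by positivity)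
  have hlim : Tendsto (fun n => Φ ∘L ((V n).subtypeL ∘L
      (have := hV n; (V n).orthogonalProjectionOnto))) atTop (𝓝 Φ) := by
    rw [tendsto_iff_norm_sub_tendsto_zero]
    have h6 : Tendsto (fun n : ℕ => Real.sqrt (M * (1 / ((n : ℝ) + 1)))) atTop (𝓝 0) := by
      have := (tendsto_one_div_add_atTop_nhds_zero_nat (𝕜 := ℝ)).const_mul M
      rw [mul_zero] at this
      have h7 := (Real.continuous_sqrt.tendsto 0).comp this
      rw [Real.sqrt_zero] at h7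
      exact h7
    refine squeeze_zero (fun n => norm_nonneg _) (fun n => ?_) h6
    have := hV n
    refine ContinuousLinearMap.opNorm_le_bound _ (Real.sqrt_nonneg _) fun ξ => ?_
    set p : H := ((V n).orthogonalProjectionOnto ξ : H) with hp
    have h8 : ‖(Φ ∘L ((V n).subtypeL ∘L (V n).orthogonalProjectionOnto) - Φ) ξ‖ = ‖Φ (ξ - p)‖ := by
      rw [ContinuousLinearMap.sub_apply, map_sub, ← norm_neg]
      congr 1
      rw [neg_sub]
      rfl
    rw [h8]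
    have hmem : ξ - p ∈ (V n)ᗮ := Submodule.sub_starProjection_mem_orthogonal ξ
    have h9 := hVb n _ hmem
    have h10 : ‖ξ - p‖ ≤ ‖ξ‖ := by
      have h20 := Submodule.norm_starProjection_apply_le (K := (V n)ᗮ) ξ
      rw [Submodule.starProjection_orthogonal_val] at h20
      exact h20
    have h11 : ‖Φ (ξ - p)‖ ^ 2 ≤ M * (1 / ((n : ℝ) + 1)) * ‖ξ‖ ^ 2 := by
      have h12 := h1 (ξ - p) (Φ (ξ - p))
      have h13 : ‖⟪Φ (ξ - p), Φ (ξ - p)⟫_ℂ‖ = ‖Φ (ξ - p)‖ ^ 2 := by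
        rw [inner_self_eq_norm_sq_to_K]
        simp
      rw [h13] at h12
      rcases (norm_nonneg (Φ (ξ - p))).eq_or_lt with h0 | h0
      · rw [← h0]; simp; positivity
      · have h14 : ‖Φ (ξ - p)‖ ^ 2 * ‖Φ (ξ - p)‖ ^ 2 ≤
            ‖Φ (ξ - p)‖ ^ 2 * (M * (⟪Φ (ξ - p), ξ - p⟫_ℂ).re) := by
          calc _ = (‖Φ (ξ - p)‖ ^ 2) ^ 2 := by ring
            _ ≤ _ := h12
            _ = _ := by ring
        have h15 := le_of_mul_le_mul_left h14 (by positivity)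
        calc _ ≤ _ := h15
          _ ≤ M * (1 / ((n : ℝ) + 1) * ‖ξ - p‖ ^ 2) := by gcongr
          _ ≤ M * (1 / ((n : ℝ) + 1) * ‖ξ‖ ^ 2) := by gcongr
          _ = _ := by ring
    have h16 := Real.sqrt_le_sqrt h11
    rw [Real.sqrt_sq (norm_nonneg _), Real.sqrt_mul' _ (by positivity),
      Real.sqrt_sq (norm_nonneg _)] at h16
    exact h16
  refine isCompactOperator_of_tendsto hlim (Filter.Eventually.of_forall fun n => ?_)
  have := hV n
  have hid : IsCompactOperator (_root_.id : V n → V n) :=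
    isCompactOperator_id_iff_finiteDimensional.2 (hV n)
  exact (hid.comp_clm (V n).orthogonalProjectionOnto).clm_comp (Φ ∘L (V n).subtypeL)

end KS6Nil
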